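import Pool.Agent.Lib.TWLY.J

/-!
# Layer lemma XI: the good basis and the final theorem
-/

set_option autoImplicit false

namespace Pool.Agent.TWLY

open MvPolynomial
open TWIV.JW (BB sh cz ev2 ev2_sh)
open Pool.Agent.H15JM (RVal)
open Pool.Agent.LU1 (VPos)
open Pool.Agent.D2 (Ctx0)
open Pool.Agent.TWM (Gt)

universe u

variable {k Ω : Type u} [Field k] [Field Ω] [Algebra k Ω] [IsAlgClosed k] {p : ℕ}
  [Fact p.Prime] [CharP k p] {v : RVal Ω} {κ : ℕ → k} {t : ℕ} {ν : ℝ}

/-- The leading monomials have exponent at most `B` in the variable `j`. -/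
def Stt (w : Fin 2 → ℝ) (j : Fin 2) (B : ℕ) (W : Submodule k (MvPolynomial (Fin 2) k)) : Prop :=
  ∀ N ∈ W, ∀ m ∈ N.support, (∀ n ∈ N.support, wt w n ≤ wt w m) → m j ≤ B

/-- After an additive automorphism the layer has one variable only. -/
def Fin1 (p : ℕ) (v : RVal Ω) (ν : ℝ) (W : Submodule k (MvPolynomial (Fin 2) k))
    (x : Fin 2 → Ω) : Prop :=
  ∃ Φ : MvPolynomial (Fin 2) k ≃ₐ[k] MvPolynomial (Fin 2) k, AA Φ ∧
    ∃ b, nx Φ x b ≠ 0 ∧ v (nx Φ x b) < -(p * ν) ∧ ∀ N ∈ W, ∀ m ∈ (Φ N).support, m b = 0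

omit [IsAlgClosed k] [Fact p.Prime] [CharP k p] in
theorem Fin1.of_single {W : Submodule k (MvPolynomial (Fin 2) k)} {x : Fin 2 → Ω}
    (h : ∃ i, x i ≠ 0 ∧ v (x i) < -(p * ν) ∧ ∀ N ∈ W, ∀ m ∈ N.support, m i = 0) :
    Fin1 p v ν W x := by
  obtain ⟨i, h1, h2, h3⟩ := h
  have hx : nx (AlgEquiv.refl : MvPolynomial (Fin 2) k ≃ₐ[k] _) x i = x i := by
    simp [nx]
  exact ⟨AlgEquiv.refl, AA.refl, i, by rw [hx]; exact h1, by rw [hx]; exact h2, h3⟩

omit [IsAlgClosed k] [Fact p.Prime] [CharP k p] in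
theorem Fin1.of_map {W : Submodule k (MvPolynomial (Fin 2) k)} {x : Fin 2 → Ω}
    {E : MvPolynomial (Fin 2) k ≃ₐ[k] MvPolynomial (Fin 2) k} (hE : AA E)
    (h : Fin1 p v ν (W.map E.toLinearMap) (nx E x)) : Fin1 p v ν W x := by
  obtain ⟨Φ, hΦ, b, h1, h2, h3⟩ := h
  have hx : nx (E.trans Φ) x b = nx Φ (nx E x) b := by
    show aeval x (E.symm (Φ.symm (X b))) = aeval (nx E x) (Φ.symm (X b))
    rw [aeval_nx]
  refine ⟨E.trans Φ, hE.trans hΦ, b, by rw [hx]; exact h1, by rw [hx]; exact h2, ?_⟩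
  intro N hN
  exact h3 (E N) ⟨N, hN, rfl⟩

section step

variable {i j : Fin 2}

omit [IsAlgClosed k] [Fact p.Prime] [CharP k p] in
theorem nx_ee_i (hij : i ≠ j) (q : ℕ) (c : k) (x : Fin 2 → Ω) :
    nx (ee hij q c) x i = x i := by
  show aeval x ((ee hij q c).symm (X i)) = x i
  rw [ee_symm, es_i hij, aeval_X]

omit [IsAlgClosed k] [Fact p.Prime] [CharP k p] in
theorem nx_ee_j (hij : i ≠ j) (q : ℕ) (c : k) (x : Fin 2 → Ω) :
    nx (ee hij q c) x j = x j - algebraMap k Ω c * x i ^ q := by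
  show aeval x ((ee hij q c).symm (X j)) = _
  rw [ee_symm, es_j, map_add, map_mul, map_pow, aeval_X, aeval_X]
  have : aeval x (C (-c)) = -algebraMap k Ω c := by
    rw [← algebraMap_eq, AlgHom.commutes, map_neg]
  rw [this]
  ring

omit [IsAlgClosed k] [Fact p.Prime] [CharP k p] in
/-- The residue in case of a tie. -/
theorem exists_tie (hk : Ctx0 k v) {x : Fin 2 → Ω} {w : Fin 2 → ℝ} (hx0 : ∀ a, x a ≠ 0)
    (hxv : ∀ a, v (x a) = -w a) {q : ℕ} (htie : w j = q * w i) :
    ∃ c : k, c ≠ 0 ∧ Gt v (-w j) (x j - algebraMap k Ω c * x i ^ q) := by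
  obtain ⟨c, hc, h1⟩ := hk.res (x j / x i ^ q) (div_ne_zero (hx0 j) (pow_ne_zero _ (hx0 i))) (by
    rw [v.map_div (hx0 j) (pow_ne_zero _ (hx0 i)), v.map_pow (hx0 i), hxv, hxv, htie]
    ring)
  refine ⟨c, hc, ?_⟩
  have h2 : x j - algebraMap k Ω c * x i ^ q = (x j / x i ^ q - algebraMap k Ω c) * x i ^ q := by
    rw [sub_mul, div_mul_cancel₀ _ (pow_ne_zero _ (hx0 i))]
  rw [h2]
  have h3 : v.Ge (-w j) (x i ^ q) := by
    intro _
    rw [v.map_pow (hx0 i), hxv, htie]
    linarith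
  have h4 := Gt.mul_ge (v := v) (r := 0) h1 h3
  rw [zero_add] at h4
  exact h4

end step

/-- The good basis. -/
theorem Lay.basis (hk : Ctx0 k v) {z : Ω} {e : k} : ∀ B n : ℕ, ∀ i j : Fin 2, i ≠ j →
    ∀ (W : Submodule k (MvPolynomial (Fin 2) k)) (x : Fin 2 → Ω) (G : MvPolynomial (Fin 2) k)
      (lam : BB (Fin 2) k) (l : MvPolynomial (Fin 2) k) (Dl : MvPolynomial (Fin 2) k →ₗ[k] Ω),
      Lay p v κ t ν W x z G lam e l Dl → ∀ w : Fin 2 → ℝ, (∀ a, 0 < w a) → (∀ a, x a ≠ 0) →
      (∀ a, v (x a) = -w a) → w j < p ^ n * w i → Stt w j B W → Fin1 p v ν W x := by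
  intro B
  induction B using Nat.strong_induction_on with
  | _ B ihB =>
  intro n
  induction n using Nat.strong_induction_on with
  | _ n ihn =>
  intro i j hij W x G lam l Dl h w hw hx0 hxv hwn hst
  classical
  have : Infinite k := IsAlgClosed.instInfinite
  have hp : 1 < p := Nat.Prime.one_lt Fact.out
  rcases Nat.eq_zero_or_pos B with hB | hB
  · refine Fin1.of_single (h.single hk (h.good_of_lead hk hij hw hx0 hxv ?_))
    intro N hN m hm hmax
    have := hst N hN m hm hmax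
    omega
  by_cases htj : ∃ a : ℕ, w j = ((p ^ a : ℕ) : ℝ) * w i
  · obtain ⟨a, ha⟩ := htj
    obtain ⟨c, hc, hgt⟩ := exists_tie hk hx0 hxv ha
    have hE := ee_aa hij (p := p) a c
    have h' := h.map hE
    refine Fin1.of_map hE ?_
    by_cases h0 : v.Ge 0 (nx (ee hij (p ^ a) c) x j)
    · exact Fin1.of_single (h'.single hk (h'.good_of_ge hk hij h0))
    have hj0 : nx (ee hij (p ^ a) c) x j ≠ 0 := fun h1 => h0 fun h2 => absurd h1 h2
    have hjv : v (nx (ee hij (p ^ a) c) x j) < 0 := by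
      by_contra h1
      push Not at h1
      exact h0 fun _ => h1
    have hjw : -w j < v (nx (ee hij (p ^ a) c) x j) := by
      rw [nx_ee_j hij] at hj0 ⊢
      exact hgt hj0
    have han : a < n := by
      by_contra h1
      push Not at h1
      rw [ha] at hwn
      have h2 : (p : ℝ) ^ n ≤ ((p ^ a : ℕ) : ℝ) := by
        push_cast
        exact pow_le_pow_right₀ (by exact_mod_cast hp.le) h1
      have := hw i
      nlinarith
    set w' : Fin 2 → ℝ := fun b => -v (nx (ee hij (p ^ a) c) x b) with hw'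
    have hwi' : w' i = w i := by
      simp only [hw']
      rw [nx_ee_i, hxv, neg_neg]
    have hwj' : w' j < w j := by
      simp only [hw']
      linarith
    refine ihn a han i j hij _ _ _ _ _ _ h' w' ?_ ?_ ?_ ?_ ?_
    · refine all_pair hij (P := fun b => 0 < w' b) ?_ ?_
      · rw [hwi']
        exact hw i
      · simp only [hw']
        linarith
    · refine all_pair hij (P := fun b => nx (ee hij (p ^ a) c) x b ≠ 0) ?_ hj0
      rw [nx_ee_i]
      exact hx0 i
    · intro b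
      simp only [hw', neg_neg]
    · rw [hwi']
      rw [ha] at hwj'
      push_cast at hwj'
      exact hwj'
    · rintro _ ⟨N, hN, rfl⟩ m hm hmax
      have hN0 : N ≠ 0 := by
        rintro rfl
        rw [map_zero] at hm
        simp at hm
      obtain ⟨M, -, hM2, hM3⟩ := lead_es hij (pow_pos (by omega) a) c (hw i) ha hwi' hwj' hN0
      refine (hM3 m hm hmax).trans ?_
      have h3 : (lp i j (p ^ a) M N).rootMultiplicity c ≤ (lp i j (p ^ a) M N).natDegree := by
        rw [← Polynomial.count_roots]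
        exact (Multiset.count_le_card _ _).trans (Polynomial.card_roots' _)
      refine h3.trans (lp_natDegree_le fun n' hn' hM' => ?_)
      exact hst N hN n' hn' fun n'' hn'' => hM2 n' hn' hM' n'' hn''
  by_cases hti : ∃ a : ℕ, w i = ((p ^ a : ℕ) : ℝ) * w j
  · obtain ⟨a, ha⟩ := hti
    have ha0 : a ≠ 0 := by
      rintro rfl
      apply htj
      refine ⟨0, ?_⟩
      rw [ha]
      simp
    have hpa : 1 < p ^ a := Nat.one_lt_pow ha0 hp
    obtain ⟨c, hc, hgt⟩ := exists_tie hk hx0 hxv ha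
    have hE := ee_aa hij.symm (p := p) a c
    have h' := h.map hE
    refine Fin1.of_map hE ?_
    by_cases h0 : v.Ge 0 (nx (ee hij.symm (p ^ a) c) x i)
    · exact Fin1.of_single (h'.single hk (h'.good_of_ge hk hij.symm h0))
    have hi0 : nx (ee hij.symm (p ^ a) c) x i ≠ 0 := fun h1 => h0 fun h2 => absurd h1 h2
    have hiv : v (nx (ee hij.symm (p ^ a) c) x i) < 0 := by
      by_contra h1
      push Not at h1
      exact h0 fun _ => h1
    have hiw : -w i < v (nx (ee hij.symm (p ^ a) c) x i) := by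
      rw [nx_ee_j hij.symm] at hi0 ⊢
      exact hgt hi0
    set w' : Fin 2 → ℝ := fun b => -v (nx (ee hij.symm (p ^ a) c) x b) with hw'
    have hwj' : w' j = w j := by
      simp only [hw']
      rw [nx_ee_i, hxv, neg_neg]
    have hwi' : w' i < w i := by
      simp only [hw']
      linarith
    have hBp : B / p ^ a < B := Nat.div_lt_self hB hpa
    refine ihB (B / p ^ a) hBp a j i hij.symm _ _ _ _ _ _ h' w' ?_ ?_ ?_ ?_ ?_
    · refine all_pair hij (P := fun b => 0 < w' b) ?_ ?_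
      · simp only [hw']
        linarith
      · rw [hwj']
        exact hw j
    · refine all_pair hij (P := fun b => nx (ee hij.symm (p ^ a) c) x b ≠ 0) hi0 ?_
      rw [nx_ee_i]
      exact hx0 j
    · intro b
      simp only [hw', neg_neg]
    · rw [hwj']
      rw [ha] at hwi'
      push_cast at hwi'
      exact hwi'
    · rintro _ ⟨N, hN, rfl⟩ m hm hmax
      have hN0 : N ≠ 0 := by
        rintro rfl
        rw [map_zero] at hm
        simp at hm
      obtain ⟨M, ⟨n₀, hn₀, hM1⟩, hM2, hM3⟩ := lead_es hij.symm (pow_pos (by omega) a) c (hw j)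
        ha hwj' hwi' hN0
      refine (hM3 m hm hmax).trans ?_
      rw [Nat.le_div_iff_mul_le (by omega), mul_comm]
      refine lp_mult_le hij.symm (by omega) hn₀ hM1 (fun n' hn' hM' => ?_) hc
      exact hst N hN n' hn' fun n'' hn'' => hM2 n' hn' hM' n'' hn''
  -- no tie
  refine Fin1.of_single (h.single hk (h.good_of_no_tie hk hw hx0 hxv ?_ ?_))
  · intro a ha
    fin_cases i <;> fin_cases j <;> simp at hij
    · exact hti ⟨a, by push_cast; exact ha⟩
    · exact htj ⟨a, by push_cast; exact ha⟩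
  · intro a ha
    fin_cases i <;> fin_cases j <;> simp at hij
    · exact htj ⟨a, by push_cast; exact ha⟩
    · exact hti ⟨a, by push_cast; exact ha⟩

/-- **The layer lemma.** After an additive automorphism of the plane the whole layer depends on
one variable only, and the other displacement is large. -/
theorem Lay.main (hk : Ctx0 k v) {W : Submodule k (MvPolynomial (Fin 2) k)} {x : Fin 2 → Ω}
    {z : Ω} {G : MvPolynomial (Fin 2) k} {lam : BB (Fin 2) k} {e : k}
    {l : MvPolynomial (Fin 2) k} {Dl : MvPolynomial (Fin 2) k →ₗ[k] Ω}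
    (h : Lay p v κ t ν W x z G lam e l Dl) : Fin1 p v ν W x := by
  have hp : 1 < p := Nat.Prime.one_lt Fact.out
  by_cases h0 : v.Ge 0 (x 0)
  · exact Fin1.of_single (h.single hk (h.good_of_ge hk (one_ne_zero : (1 : Fin 2) ≠ 0) h0))
  by_cases h1 : v.Ge 0 (x 1)
  · exact Fin1.of_single (h.single hk (h.good_of_ge hk (zero_ne_one : (0 : Fin 2) ≠ 1) h1))
  have hneg : ∀ {y : Ω}, ¬ v.Ge 0 y → y ≠ 0 ∧ v y < 0 := by
    intro y hy
    refine ⟨fun h2 => hy fun h3 => absurd h2 h3, ?_⟩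
    by_contra h2
    push Not at h2
    exact hy fun _ => h2
  have hx : ∀ a, x a ≠ 0 ∧ v (x a) < 0 := by
    intro a
    fin_cases a
    · exact hneg h0
    · exact hneg h1
  obtain ⟨B, hB⟩ := h.bdd
  set w : Fin 2 → ℝ := fun a => -v (x a) with hw
  have hw0 : ∀ a, 0 < w a := fun a => by
    simp only [hw]
    linarith [(hx a).2]
  obtain ⟨n, hn⟩ := pow_unbounded_of_one_lt (w 1 / w 0) (show (1 : ℝ) < p by exact_mod_cast hp)
  refine Lay.basis hk B n 0 1 zero_ne_one W x G lam l Dl h w hw0 (fun a => (hx a).1)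
    (fun a => by simp [hw]) ?_ ?_
  · rwa [div_lt_iff₀ (hw0 0)] at hn
  · intro N hN m hm _
    have := hB N hN m hm
    unfold dg at this
    omega

end Pool.Agent.TWLY
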