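import Pool.Agent.Lib.TWLY.C

/-!
# Layer lemma IV: the bound (E2)
-/

set_option autoImplicit false

namespace Pool.Agent.TWLY

open MvPolynomial
open TWIV.JW (BB sh cz)
open Pool.Agent.H15JM (RVal)
open Pool.Agent.LU1 (VPos)
open Pool.Agent.D2 (Ctx0)
open Pool.Agent.TWM (Gt)

universe u

/-! ## binomial coefficients -/

section bin

variable (p : ℕ) [Fact p.Prime]

theorem choose_pow_mul (j A B : ℕ) : (p ^ j * A).choose (p ^ j * B) ≡ A.choose B [MOD p] := by
  have hp : 0 < p := Nat.Prime.pos Fact.out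
  induction j with
  | zero => simp [Nat.ModEq.refl]
  | succ j ih =>
    have h1 : ∀ A, p ^ (j + 1) * A = p * (p ^ j * A) := fun A => by ring
    rw [h1, h1]
    refine (Choose.choose_modEq_choose_mod_mul_choose_div_nat (p := p)).trans ?_
    rw [Nat.mul_mod_right, Nat.mul_mod_right, Nat.choose_self, one_mul,
      Nat.mul_div_cancel_left _ hp, Nat.mul_div_cancel_left _ hp]
    exact ih

theorem exists_split_nat (k : Type*) [Field k] [CharP k p] {A : ℕ} (hA : A ≠ 0)
    (hnp : ∀ a, A ≠ p ^ a) : ∃ a b, a ≠ 0 ∧ b ≠ 0 ∧ a + b = A ∧ (((a + b).choose a : ℕ) : k) ≠ 0 := by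
  have hp : 1 < p := Nat.Prime.one_lt Fact.out
  obtain ⟨j, A', hA', rfl⟩ := Nat.exists_eq_pow_mul_and_not_dvd hA p hp.ne'
  have h0 : A' ≠ 0 := by
    rintro rfl
    exact hA' (dvd_zero _)
  have h1 : A' ≠ 1 := by
    rintro rfl
    exact hnp j (mul_one _)
  have hpj : 0 < p ^ j := by positivity
  refine ⟨p ^ j, p ^ j * (A' - 1), hpj.ne', ?_, ?_, ?_⟩
  · exact mul_ne_zero hpj.ne' (by omega)
  · rw [Nat.mul_sub, mul_one]
    have : p ^ j ≤ p ^ j * A' := Nat.le_mul_of_pos_right _ (by omega)
    omega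
  · have h2 : p ^ j + p ^ j * (A' - 1) = p ^ j * A' := by
      rw [Nat.mul_sub, mul_one]
      have : p ^ j ≤ p ^ j * A' := Nat.le_mul_of_pos_right _ (by omega)
      omega
    rw [h2, Ne, CharP.cast_eq_zero_iff k p]
    have h3 := choose_pow_mul p j A' 1
    rw [mul_one, Nat.choose_one_right] at h3
    intro h4
    exact hA' ((Nat.modEq_zero_iff_dvd.mp (h3.symm.trans (Nat.modEq_zero_iff_dvd.mpr h4))))

theorem exists_split (k : Type*) [Field k] [CharP k p] {e : Ex} (he : e ≠ 0)
    (hna : ∀ i a, e ≠ Finsupp.single i (p ^ a)) :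
    ∃ m n, m ≠ 0 ∧ n ≠ 0 ∧ m + n = e ∧ (bn m n : k) ≠ 0 := by
  have key : ∀ i : Fin 2, (∀ j, j ≠ i → e j = 0) → ∃ m n, m ≠ 0 ∧ n ≠ 0 ∧ m + n = e ∧
      (bn m n : k) ≠ 0 := by
    intro i hi
    have hei : e = Finsupp.single i (e i) := by
      ext j
      by_cases h : j = i
      · subst h
        simp
      · rw [hi j h, Finsupp.single_apply, if_neg (Ne.symm h)]
    have h0 : e i ≠ 0 := by
      intro h
      apply he
      rw [hei, h, Finsupp.single_zero]
    obtain ⟨a, b, ha, hb, hab, h1⟩ := exists_split_nat p k h0 (fun a h => hna i a (by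
      rw [← h]; exact hei))
    refine ⟨Finsupp.single i a, Finsupp.single i b, ?_, ?_, ?_, ?_⟩
    · rw [Ne, Finsupp.single_eq_zero]
      exact ha
    · rw [Ne, Finsupp.single_eq_zero]
      exact hb
    · rw [← Finsupp.single_add, hab]
      exact hei.symm
    · unfold bn
      fin_cases i <;> simpa using h1
  by_cases h0 : e 0 = 0
  · refine key 1 fun j hj => ?_
    fin_cases j
    · exact h0
    · exact absurd rfl hj
  by_cases h1 : e 1 = 0
  · refine key 0 fun j hj => ?_
    fin_cases j
    · exact absurd rfl hj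
    · exact h1
  · refine ⟨Finsupp.single 0 (e 0), Finsupp.single 1 (e 1), ?_, ?_, ?_, ?_⟩
    · rw [Ne, Finsupp.single_eq_zero]
      exact h0
    · rw [Ne, Finsupp.single_eq_zero]
      exact h1
    · exact ex_ext (by simp) (by simp)
    · unfold bn
      simp

end bin

/-! ## additive polynomials -/

section add

variable {k : Type u} [Field k] [Infinite k]

theorem Adt.sh_eq {A : MvPolynomial (Fin 2) k} (hA : Adt A) : sh k A = C A + cz k A := by
  have h1 : ∀ m, coeff m (sh k A - (C A + cz k A)) ∈ (⊥ : Submodule k (MvPolynomial (Fin 2) k)) := by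
    refine coeff_mem_of_eval _ fun c => ?_
    rw [Submodule.mem_bot]
    show evc c (sh k A - (C A + cz k A)) = 0
    rw [map_sub, map_add, evc_sh, evc_C, evc_cz, sub_eq_zero]
    refine MvPolynomial.funext fun s => ?_
    rw [eval_tr, hA, map_add, eval_C]
  have h2 : sh k A - (C A + cz k A) = 0 := by
    ext1 m
    rw [coeff_zero]
    exact (Submodule.mem_bot k).mp (h1 m)
  exact sub_eq_zero.mp h2

theorem Adt.coeff_single {A : MvPolynomial (Fin 2) k} (hA : Adt A) (i : Fin 2) :
    coeff (Finsupp.single i 1) (sh k A) = C (coeff (Finsupp.single i 1) A) := by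
  have h : (0 : Ex) ≠ Finsupp.single i 1 := by
    intro h
    have := DFunLike.congr_fun h i
    simp at this
  rw [hA.sh_eq, coeff_add, coeff_C, if_neg h, zero_add, coeff_cz]

end add

/-! ## the size of `P (Z)` -/

section vPP

variable {k Ω : Type u} [Field k] [Field Ω] [Algebra k Ω] {v : RVal Ω} {p : ℕ} [Fact p.Prime]
  {κ : ℕ → k} {t : ℕ}

theorem v_PP (hk : Ctx0 k v) (hκ : κ t ≠ 0) {Z : Ω} (hZ : Z ≠ 0) (hv : v Z < 0) :
    PP p κ t Z ≠ 0 ∧ v (PP p κ t Z) = (p : ℝ) ^ (t + 1) * v Z := by
  have hp : 1 < p := Nat.Prime.one_lt Fact.out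
  have ha : algebraMap k Ω (κ t) ≠ 0 := by simpa using hκ
  have h1 : algebraMap k Ω (κ t) * Z ^ p ^ (t + 1) ≠ 0 := mul_ne_zero ha (pow_ne_zero _ hZ)
  have h2 : v (algebraMap k Ω (κ t) * Z ^ p ^ (t + 1)) = (p : ℝ) ^ (t + 1) * v Z := by
    rw [v.map_mul ha (pow_ne_zero _ hZ), hk.triv _ hκ, v.map_pow hZ, zero_add]
    push_cast
    rfl
  have h3 : Gt v ((p : ℝ) ^ (t + 1) * v Z) (∑ i ∈ Finset.range t,
      algebraMap k Ω (κ i) * Z ^ p ^ (i + 1)) := by
    refine Gt.sum _ _ fun i hi => ?_
    rw [Finset.mem_range] at hi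
    refine Gt.of_ge ((hk.ge (κ i)).mul (TWM.ge_pow (RVal.ge_self Z) (p ^ (i + 1)))) ?_
    push_cast
    have h4 : (p : ℝ) ^ (i + 1) < (p : ℝ) ^ (t + 1) :=
      pow_lt_pow_right₀ (by exact_mod_cast hp) (by omega)
    nlinarith
  unfold PP
  rw [Finset.sum_range_succ]
  by_cases h4 : ∑ i ∈ Finset.range t, algebraMap k Ω (κ i) * Z ^ p ^ (i + 1) = 0
  · rw [h4, zero_add]
    exact ⟨h1, h2⟩
  · have h5 := v.add_of_lt h1 h4 (by rw [h2]; exact h3 h4)
    rw [add_comm]
    exact ⟨h5.1, by rw [h5.2, h2]⟩

end vPP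

/-! ## (E2) -/

section e2

variable {k Ω : Type u} [Field k] [Field Ω] [Algebra k Ω] [IsAlgClosed k] {p : ℕ}
  [Fact p.Prime] [CharP k p] {v : RVal Ω} {κ : ℕ → k} {t : ℕ} {ν : ℝ}
  {W : Submodule k (MvPolynomial (Fin 2) k)} {x : Fin 2 → Ω} {z : Ω}
  {G : MvPolynomial (Fin 2) k} {lam : BB (Fin 2) k} {e : k} {l : MvPolynomial (Fin 2) k}
  {Dl : MvPolynomial (Fin 2) k →ₗ[k] Ω}

theorem Lay.coeff_dF (h : Lay p v κ t ν W x z G lam e l Dl) (m : Ex) :
    coeff m (dF p κ t G lam) ∈ W := by
  have : Infinite k := IsAlgClosed.instInfinite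
  refine coeff_mem_of_eval _ (fun c => ?_) m
  show evc c (dF p κ t G lam) ∈ W
  unfold dF
  rw [map_add, map_sub, map_sub, evc_sh, evc_C, evc_cz]
  have h1 : evc c (PP p κ t lam) = PP p κ t (evc c lam) := by
    unfold PP
    rw [map_sum]
    refine Finset.sum_congr rfl fun i _ => ?_
    rw [map_mul, map_pow]
    congr 1
    exact evc_C c _
  rw [h1]
  exact h.om c

theorem dF_red (G f : MvPolynomial (Fin 2) k) (lam : BB (Fin 2) k) :
    dF p κ t (G + PP p κ t f) (lam - (sh k f - C f - cz k f)) = dF p κ t G lam := by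
  have hC : (C (PP p κ t f) : BB (Fin 2) k) = PP p κ t (C f) := by
    unfold PP
    rw [map_sum]
    refine Finset.sum_congr rfl fun i _ => ?_
    rw [C_mul, C_pow]
    rfl
  unfold dF
  rw [map_add (sh k), map_add (cz k), C_add, PP_sub, PP_sub, PP_sub, PP_map, PP_map, hC]
  ring

/-- **(E2).** -/
theorem Lay.e2 (h : Lay p v κ t ν W x z G lam e l Dl) (hk : Ctx0 k v) {w : Fin 2 → ℝ}
    (hw : ∀ i, 0 ≤ w i) (hx : ∀ i, v.Ge (-w i) (x i))
    (hd : ∀ N ∈ W, ∀ m ∈ N.support, wt w m ≤ 2 * ν) : (p : ℝ) * ν < max (w 0) (w 1) := by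
  classical
  by_contra hcon
  push Not at hcon
  have : Infinite k := IsAlgClosed.instInfinite
  have : CharP Ω p := charP_of_injective_algebraMap (algebraMap k Ω).injective p
  have hp : 1 < p := Nat.Prime.one_lt Fact.out
  have hp2 : (2 : ℝ) ≤ p := by exact_mod_cast hp
  have hν := h.nu
  have hwm : ∀ i, w i ≤ p * ν := by
    intro i
    fin_cases i
    · exact (le_max_left _ _).trans hcon
    · exact (le_max_right _ _).trans hcon
  obtain ⟨f, hf0, hfred⟩ := exists_red (κ := κ) (t := t) (p := p) h.kap G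
  set Gf := G + PP p κ t f with hGf
  set lamf := lam - (sh k f - C f - cz k f) with hlamf
  set Z := z - aeval x f with hZ
  have hZ0 : Z ≠ 0 := h.z_ne f hf0
  have hZv : v Z < -ν := h.z_lt f hf0
  set δ := -v Z with hδ
  have hνδ : ν < δ := by linarith
  have hδ0 : 0 < δ := hν.trans_lt hνδ
  have hF : ∀ m, coeff m (dF p κ t Gf lamf) ∈ W := by
    intro m
    rw [hGf, hlamf, dF_red]
    exact h.coeff_dF m
  have hA := cf_lam_le h.kap hν hw hF hd hfred
  have hB := fun {m n : Ex} (hm : m ≠ 0) (hn : 2 * ν < wt w n) =>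
    bn_coeff_eq_zero h.kap hν hw hF hd hfred hm hn
  have hQ2 : (2 : ℝ) ≤ (p : ℝ) ^ (t + 1) := by
    calc (2 : ℝ) ≤ p := hp2
      _ = (p : ℝ) ^ 1 := (pow_one _).symm
      _ ≤ (p : ℝ) ^ (t + 1) := pow_le_pow_right₀ (by linarith) (by omega)
  have hQp : (p : ℝ) ≤ (p : ℝ) ^ (t + 1) := by
    calc (p : ℝ) = (p : ℝ) ^ 1 := (pow_one _).symm
      _ ≤ (p : ℝ) ^ (t + 1) := pow_le_pow_right₀ (by linarith) (by omega)
  -- the cost
  have hDX : ∀ i, v.Ge (-w i) (Dl (X i)) := by
    intro i
    refine h.norm _ _ ?_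
    rw [aeval_X]
    exact hx i
  have hcost : v.Ge (-max (p * ν) (2 * ν)) (Dl (C e * f + l)) := by
    rcases h.cas with he | ⟨hl, hS1, hS2⟩
    · rw [he, C_0, zero_mul, zero_add, dl_eq h.leib l]
      refine RVal.Ge.sum _ _ fun i _ => ?_
      rw [h.lin.coeff_single, ← algebraMap_eq, AlgHom.commutes]
      refine ((hk.ge _).mul (hDX i)).mono ?_
      have := hwm i
      have := le_max_left ((p : ℝ) * ν) (2 * ν)
      linarith
    · rw [hl, add_zero]
      have h1 : Dl (C e * f) = algebraMap k Ω e * Dl f := by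
        rw [← smul_eq_C_mul, map_smul, Algebra.smul_def]
      rw [h1, dl_eq h.leib f]
      rw [show -max ((p : ℝ) * ν) (2 * ν) = 0 + -max ((p : ℝ) * ν) (2 * ν) by ring]
      refine (hk.ge _).mul (RVal.Ge.sum _ _ fun i _ => ?_)
      have h0i : (0 : Ex) ≠ Finsupp.single i 1 := by
        intro h
        have := DFunLike.congr_fun h i
        simp at this
      have h2 : coeff (Finsupp.single i 1) (sh k f) = coeff (Finsupp.single i 1) lam -
          coeff (Finsupp.single i 1) lamf + C (coeff (Finsupp.single i 1) f) := by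
        rw [hlamf, coeff_sub, coeff_sub, coeff_sub, coeff_C, if_neg h0i, coeff_cz]
        ring
      by_cases h3 : ∃ n : Ex, n ≠ 0 ∧ coeff n (coeff (Finsupp.single i 1) (sh k f)) ≠ 0
      · obtain ⟨n, hn, h4⟩ := h3
        rw [coeff_sh] at h4
        -- the monomial in `lamf`
        have h5 : cf n (Finsupp.single i 1) lamf ≠ 0 := by
          have h6 : ∀ m, coeff (Finsupp.single i 1) (coeff m lam) = 0 := by
            let V : Submodule k (MvPolynomial (Fin 2) k) :=
              LinearMap.ker (MvPolynomial.lcoeff k (Finsupp.single i 1))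
            intro m
            have h7 : coeff m lam ∈ V := by
              refine coeff_mem_of_eval lam (fun c => ?_) m
              exact hS2 c i
            exact h7
          rw [hlamf, cf_sub, cf_sub, cf_sub, cf_C hn, cf_cz _ (Ne.symm h0i), cf_sh,
            show cf n (Finsupp.single i 1) lam = 0 from h6 n, bn_comm, add_comm n]
          simpa using h4
        have h6 := hA _ _ h5
        rw [wt_single, Nat.cast_one, one_mul] at h6
        have h7 : w i ≤ ν := by nlinarith [hw i]
        have h8 : v.Ge (-ν) (aeval x (coeff (Finsupp.single i 1) (sh k f))) := by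
          rw [h2, map_add, map_sub]
          refine ((h.le _ (hS1 i)).sub ?_).add ?_
          · refine ge_aeval hk hx _ fun n hn => ?_
            have h9 := hA (Finsupp.single i 1) n (mem_support_iff.mp hn)
            have := wt_nonneg hw n
            nlinarith
          · rw [← algebraMap_eq, AlgHom.commutes]
            exact (hk.ge _).mono (by linarith)
        refine (h8.mul (hDX i)).mono ?_
        have := le_max_right ((p : ℝ) * ν) (2 * ν)
        linarith
      · push Not at h3
        have h4 : coeff (Finsupp.single i 1) (sh k f) =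
            C (coeff 0 (coeff (Finsupp.single i 1) (sh k f))) := by
          ext n
          rw [coeff_C]
          split_ifs with h5
          · rw [h5]
          · exact h3 n (Ne.symm h5)
        rw [h4, ← algebraMap_eq, AlgHom.commutes]
        refine ((hk.ge _).mul (hDX i)).mono ?_
        have := hwm i
        have := le_max_left ((p : ℝ) * ν) (2 * ν)
        linarith
  -- the relation
  have hrel : v.Ge (-max δ (max (p * ν) (2 * ν))) (PP p κ t z + aeval x G) := by
    refine h.rel f hf0 _ ?_ ?_ ?_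
    · have := le_max_left δ (max (p * ν) (2 * ν))
      linarith
    · intro _
      have := le_max_left δ (max (p * ν) (2 * ν))
      show _ ≤ v Z
      linarith
    · refine hcost.mono ?_
      have := le_max_right δ (max (p * ν) (2 * ν))
      linarith
  have hlt : max δ (max (p * ν) (2 * ν)) < (p : ℝ) ^ (t + 1) * δ := by
    refine max_lt (by nlinarith) (max_lt ?_ (by nlinarith))
    nlinarith
  have hsum : PP p κ t z + aeval x G = PP p κ t Z + aeval x Gf := by
    have h1 : PP p κ t z = PP p κ t Z + PP p κ t (aeval x f) := by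
      rw [← PP_add (p := p) (κ := κ) (t := t)]
      congr 1
      rw [hZ]
      ring
    have h2 : aeval x (PP p κ t f) = PP p κ t (aeval x f) :=
      PP_map (p := p) (κ := κ) (t := t) (aeval x) f
    rw [h1, hGf, map_add, h2]
    ring
  obtain ⟨hP0, hPv⟩ := v_PP (p := p) hk h.kap hZ0 (by linarith : v Z < 0)
  have hPv' : v (PP p κ t Z) = -((p : ℝ) ^ (t + 1) * δ) := by
    rw [hPv, hδ]
    ring
  have hG1 : aeval x Gf ≠ 0 ∧ v (aeval x Gf) = -((p : ℝ) ^ (t + 1) * δ) := by
    have h1 : Gt v (v (PP p κ t Z)) (PP p κ t Z - -aeval x Gf) := by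
      rw [sub_neg_eq_add, ← hsum, hPv']
      exact Gt.of_ge hrel (by linarith)
    obtain ⟨h2, h3⟩ := h1.val_eq hP0
    have h4 : aeval x Gf ≠ 0 := by simpa using h2
    refine ⟨h4, ?_⟩
    rw [v.map_neg _ h4] at h3
    rw [h3, hPv']
  -- the other bound
  rcases Nat.eq_zero_or_pos t with ht | ht
  · -- `Q = p`
    have h1 : Gf = 0 := by
      ext m
      rw [coeff_zero]
      by_contra h0
      by_cases hm : m = 0
      · apply h0
        rw [hm, ← constantCoeff_eq, hGf, map_add, h.G0, zero_add]
        unfold PP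
        rw [map_sum]
        refine Finset.sum_eq_zero fun i _ => ?_
        rw [map_mul, map_pow, hf0, zero_pow (by positivity), mul_zero]
      · obtain ⟨g, hg⟩ := h.Gp
        have h2 : ∃ m', m = p • m' := by
          by_contra h3
          push Not at h3
          apply h0
          rw [hGf, coeff_add, hg]
          have h4 : coeff m (g ^ p) = 0 := by
            by_contra h5
            have h6 : coeff m (g ^ p ^ 1) ≠ 0 := by rwa [pow_one]
            obtain ⟨m', h7, -⟩ := exists_of_coeff_pow p g 1 h6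
            rw [pow_one] at h7
            exact h3 m' h7
          rw [h4, zero_add, coeff_PP]
          refine Finset.sum_eq_zero fun i _ => ?_
          by_contra h5
          have h6 : coeff m (f ^ p ^ (i + 1)) ≠ 0 := right_ne_zero_of_mul h5
          obtain ⟨m', h7, -⟩ := exists_of_coeff_pow p f (i + 1) h6
          refine h3 (p ^ i • m') ?_
          rw [h7, smul_smul, pow_succ']
        obtain ⟨m', rfl⟩ := h2
        have hm' : m' ≠ 0 := by
          rintro rfl
          exact hm (smul_zero _)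
        have h3 := hfred m' hm'
        rw [ht, zero_add, pow_one] at h3
        exact h0 h3
    exact hG1.1 (by rw [h1, map_zero])
  · have hQ4 : (4 : ℝ) ≤ (p : ℝ) ^ (t + 1) := by
      calc (4 : ℝ) = 2 ^ 2 := by norm_num
        _ ≤ (p : ℝ) ^ 2 := by gcongr
        _ ≤ (p : ℝ) ^ (t + 1) := pow_le_pow_right₀ (by linarith) (by omega)
    have h1 : Gt v (-((p : ℝ) ^ (t + 1) * δ)) (aeval x Gf) := by
      refine gt_aeval hk hx _ fun m hm => ?_
      rw [mem_support_iff] at hm
      by_cases hm0 : m = 0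
      · rw [hm0, show wt w 0 = 0 by simp [wt]]
        positivity
      by_cases hna : ∀ i a, m ≠ Finsupp.single i (p ^ a)
      · obtain ⟨a, b, ha, hb, hab, hbn⟩ := exists_split p k hm0 hna
        have h2 : wt w b ≤ 2 * ν := by
          by_contra h3
          push Not at h3
          have h4 := hB ha h3
          rw [hab] at h4
          exact mul_ne_zero hbn hm h4
        have h3 : wt w a ≤ 2 * ν := by
          by_contra h3
          push Not at h3
          have h4 := hB hb h3
          rw [add_comm, hab, bn_comm] at h4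
          exact mul_ne_zero hbn hm h4
        rw [← hab, wt_add]
        nlinarith
      · push Not at hna
        obtain ⟨i, a, hia⟩ := hna
        have h2 : a ≤ t := by
          by_contra h3
          push Not at h3
          apply hm
          have h4 := hfred (Finsupp.single i (p ^ (a - (t + 1)))) (by
            rw [Ne, Finsupp.single_eq_zero]
            positivity)
          rw [Finsupp.smul_single, smul_eq_mul, ← pow_add,
            Nat.add_sub_cancel' (by omega : t + 1 ≤ a), ← hia] at h4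
          exact h4
        rw [hia, wt_single]
        push_cast
        have h3 : (p : ℝ) ^ a ≤ (p : ℝ) ^ t := pow_le_pow_right₀ (by linarith) h2
        have h4 : (0 : ℝ) < (p : ℝ) ^ t := by positivity
        calc (p : ℝ) ^ a * w i ≤ (p : ℝ) ^ t * (p * ν) :=
              mul_le_mul h3 (hwm i) (hw i) h4.le
          _ = (p : ℝ) ^ (t + 1) * ν := by ring
          _ < (p : ℝ) ^ (t + 1) * δ := by
            apply mul_lt_mul_of_pos_left hνδ
            positivity
    have h2 := h1 hG1.1
    rw [hG1.2] at h2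
    exact lt_irrefl _ h2

end e2

end Pool.Agent.TWLY
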