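import Pool.Agent.Lib.TWLY.B

/-!
# Layer lemma III: the data, weights, and the bound (E2)
-/

set_option autoImplicit false

namespace Pool.Agent.TWLY

open MvPolynomial
open TWIV.JW (BB sh cz)
open Pool.Agent.H15JM (RVal)
open Pool.Agent.LU1 (VPos)
open Pool.Agent.D2 (Ctx0)
open Pool.Agent.TWM (Gt)

universe u

/-- additive polynomials -/
def Adt {k : Type*} [Field k] (A : MvPolynomial (Fin 2) k) : Prop :=
  ∀ s c : Fin 2 → k, eval (s + c) A = eval s A + eval c A

/-- The data of the layer lemma. -/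
structure Lay {k Ω : Type u} [Field k] [Field Ω] [Algebra k Ω] (p : ℕ) (v : RVal Ω)
    (κ : ℕ → k) (t : ℕ) (ν : ℝ) (W : Submodule k (MvPolynomial (Fin 2) k)) (x : Fin 2 → Ω)
    (z : Ω) (G : MvPolynomial (Fin 2) k) (lam : BB (Fin 2) k) (e : k)
    (l : MvPolynomial (Fin 2) k) (Dl : MvPolynomial (Fin 2) k →ₗ[k] Ω) : Prop where
  kap : κ t ≠ 0
  nu : 0 ≤ ν
  bdd : ∃ B : ℕ, ∀ N ∈ W, ∀ m ∈ N.support, dg m ≤ B
  zero : ∀ N ∈ W, constantCoeff N = 0
  tr : ∀ c, ∀ N ∈ W, tr c N - C (eval c N) ∈ W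
  le : ∀ N ∈ W, v.Ge (-ν) (aeval x N)
  z_ne : ∀ f : MvPolynomial (Fin 2) k, constantCoeff f = 0 → z - aeval x f ≠ 0
  z_lt : ∀ f : MvPolynomial (Fin 2) k, constantCoeff f = 0 → v (z - aeval x f) < -ν
  rel : ∀ f : MvPolynomial (Fin 2) k, constantCoeff f = 0 → ∀ r ≤ 0, v.Ge r (z - aeval x f) →
    v.Ge r (Dl (C e * f + l)) → v.Ge r (PP p κ t z + aeval x G)
  leib : ∀ f g : MvPolynomial (Fin 2) k, Dl (f * g) = aeval x f * Dl g + aeval x g * Dl f
  norm : ∀ (f : MvPolynomial (Fin 2) k) (r : ℝ), v.Ge r (aeval x f) → v.Ge r (Dl f)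
  G0 : constantCoeff G = 0
  Gp : ∃ h, G = h ^ p
  om : ∀ c, TWLY.tr c G - G - C (eval c G) + PP p κ t (evc c lam) ∈ W
  lin : Adt l
  cas : e = 0 ∨ (l = 0 ∧ (∀ i, coeff (Finsupp.single i 1) lam ∈ W) ∧
    ∀ c i, coeff (Finsupp.single i 1) (evc c lam) = 0)

/-- weight of an exponent -/
def wt (w : Fin 2 → ℝ) (m : Ex) : ℝ := m 0 * w 0 + m 1 * w 1

theorem wt_add (w : Fin 2 → ℝ) (m n : Ex) : wt w (m + n) = wt w m + wt w n := by
  unfold wt
  rw [Finsupp.add_apply, Finsupp.add_apply]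
  push_cast
  ring

theorem wt_smul (w : Fin 2 → ℝ) (a : ℕ) (m : Ex) : wt w (a • m) = a * wt w m := by
  unfold wt
  rw [Finsupp.smul_apply, Finsupp.smul_apply]
  push_cast [smul_eq_mul]
  ring

theorem wt_nonneg {w : Fin 2 → ℝ} (hw : ∀ i, 0 ≤ w i) (m : Ex) : 0 ≤ wt w m := by
  unfold wt
  have := hw 0
  have := hw 1
  positivity

theorem wt_single (w : Fin 2 → ℝ) (i : Fin 2) (a : ℕ) :
    wt w (Finsupp.single i a) = a * w i := by
  unfold wt
  fin_cases i <;> simp

section size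

variable {k Ω : Type u} [Field k] [Field Ω] [Algebra k Ω] {v : RVal Ω} (hk : Ctx0 k v)
  {x : Fin 2 → Ω} {w : Fin 2 → ℝ}

include hk

theorem ge_mon (hx : ∀ i, v.Ge (-w i) (x i)) (c : k) (m : Ex) :
    v.Ge (-wt w m) (algebraMap k Ω c * ∏ i, x i ^ m i) := by
  rw [Fin.prod_univ_two]
  have h1 := (TWM.ge_pow (hx 0) (m 0)).mul (TWM.ge_pow (hx 1) (m 1))
  have h2 := (hk.ge c).mul h1
  refine h2.mono ?_
  unfold wt
  linarith

theorem ge_aeval (hx : ∀ i, v.Ge (-w i) (x i)) (N : MvPolynomial (Fin 2) k) {d : ℝ}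
    (h : ∀ m ∈ N.support, wt w m ≤ d) : v.Ge (-d) (aeval x N) := by
  rw [aeval_def, eval₂_eq']
  refine RVal.Ge.sum _ _ fun m hm => ?_
  exact (ge_mon hk hx _ m).mono (by linarith [h m hm])

theorem gt_aeval (hx : ∀ i, v.Ge (-w i) (x i)) (N : MvPolynomial (Fin 2) k) {d : ℝ}
    (h : ∀ m ∈ N.support, wt w m < d) : Gt v (-d) (aeval x N) := by
  rw [aeval_def, eval₂_eq']
  refine Gt.sum _ _ fun m hm => ?_
  exact Gt.of_ge (ge_mon hk hx _ m) (by linarith [h m hm])

end size

section dl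

variable {k Ω : Type u} [Field k] [Field Ω] [Algebra k Ω]

/-- The partial derivative as a coefficient of the translate. -/
theorem coeff_sh_single_mul (i : Fin 2) (f g : MvPolynomial (Fin 2) k) :
    coeff (Finsupp.single i 1) (sh k (f * g)) =
      f * coeff (Finsupp.single i 1) (sh k g) + g * coeff (Finsupp.single i 1) (sh k f) := by
  classical
  have h0 : ∀ f : MvPolynomial (Fin 2) k, coeff 0 (sh k f) = f := by
    intro f
    ext n
    rw [coeff_sh]
    simp [bn]
  rw [map_mul, coeff_mul, Finsupp.antidiagonal_single]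
  simp only [Finset.sum_map, Finset.Nat.antidiagonal_succ, Finset.Nat.antidiagonal_zero,
    Finset.sum_cons, Function.Embedding.prodMap, Function.Embedding.coeFn_mk, Prod.map,
    Finset.map_singleton, Finset.sum_singleton]
  simp [h0]
  ring

theorem dl_eq {x : Fin 2 → Ω} {Dl : MvPolynomial (Fin 2) k →ₗ[k] Ω}
    (leib : ∀ f g, Dl (f * g) = aeval x f * Dl g + aeval x g * Dl f)
    (f : MvPolynomial (Fin 2) k) :
    Dl f = ∑ i, aeval x (coeff (Finsupp.single i 1) (sh k f)) * Dl (X i) := by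
  have h1 : Dl 1 = 0 := by
    have := leib 1 1
    rw [mul_one, map_one (aeval x), one_mul] at this
    linear_combination -this
  have hC : ∀ a : k, Dl (C a) = 0 := by
    intro a
    rw [show (C a : MvPolynomial (Fin 2) k) = a • 1 by rw [smul_eq_C_mul, mul_one], map_smul, h1,
      smul_zero]
  induction f using MvPolynomial.induction_on with
  | C a =>
    rw [hC]
    symm
    refine Finset.sum_eq_zero fun i _ => ?_
    have : sh k (C a : MvPolynomial (Fin 2) k) = C (C a) := by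
      rw [← algebraMap_eq, AlgHom.commutes]
      rfl
    rw [this, coeff_C, if_neg, map_zero, zero_mul]
    intro h
    have := DFunLike.congr_fun h i
    simp at this
  | add f g hf hg =>
    rw [map_add, hf, hg, ← Finset.sum_add_distrib]
    refine Finset.sum_congr rfl fun i _ => ?_
    rw [map_add, coeff_add, map_add, add_mul]
  | mul_X f j hf =>
    rw [leib, hf, Finset.mul_sum]
    have h2 : ∀ i, coeff (Finsupp.single i 1) (sh k (X j : MvPolynomial (Fin 2) k)) =
        if i = j then 1 else 0 := by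
      intro i
      have : sh k (X j : MvPolynomial (Fin 2) k) = C (X j) + X j := by simp [sh]
      rw [this, coeff_add, coeff_C, coeff_X, if_neg]
      · rw [zero_add]
        simp only [Finsupp.single_left_inj (one_ne_zero : (1 : ℕ) ≠ 0)]
        simp [eq_comm]
      · intro h
        have := DFunLike.congr_fun h i
        simp at this
    simp_rw [coeff_sh_single_mul, h2, map_add, map_mul, add_mul]
    rw [Finset.sum_add_distrib]
    congr 1
    · rw [Finset.sum_eq_single j]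
      · simp
      · intro b _ hb
        simp [hb]
      · simp
    · refine Finset.sum_congr rfl fun i _ => ?_
      ring

end dl

/-! ## the degree of the cocycle -/

section claim

variable {k : Type u} [Field k] {p : ℕ} [Fact p.Prime] [CharP k p] {κ : ℕ → k} {t : ℕ}
  {ν : ℝ} {W : Submodule k (MvPolynomial (Fin 2) k)} {G : MvPolynomial (Fin 2) k}
  {lam : BB (Fin 2) k} {w : Fin 2 → ℝ}

/-- the defect of additivity of `G`, corrected by the cocycle -/
noncomputable def dF (p : ℕ) (κ : ℕ → k) (t : ℕ) (G : MvPolynomial (Fin 2) k)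
    (lam : BB (Fin 2) k) : BB (Fin 2) k :=
  sh k G - C G - cz k G + PP p κ t lam

theorem cf_lam_le (hκ : κ t ≠ 0) (hν : 0 ≤ ν) (hw : ∀ i, 0 ≤ w i)
    (hF : ∀ m, coeff m (dF p κ t G lam) ∈ W)
    (hd : ∀ N ∈ W, ∀ n ∈ N.support, wt w n ≤ 2 * ν)
    (hred : ∀ m : Ex, m ≠ 0 → coeff (p ^ (t + 1) • m) G = 0) (m n : Ex)
    (hmn : cf m n lam ≠ 0) : (p : ℝ) ^ (t + 1) * wt w n ≤ 2 * ν := by
  classical
  by_contra hcon
  push Not at hcon
  have hp : 1 < p := Nat.Prime.one_lt Fact.out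
  set S : Finset (Ex × Ex) := (lam.support.biUnion fun m =>
    (coeff m lam).support.image fun n => (m, n)).filter
      (fun q => 2 * ν < (p : ℝ) ^ (t + 1) * wt w q.2) with hS
  have hmem : ∀ q : Ex × Ex, q ∈ S ↔ cf q.1 q.2 lam ≠ 0 ∧
      2 * ν < (p : ℝ) ^ (t + 1) * wt w q.2 := by
    rintro ⟨a, b⟩
    rw [hS, Finset.mem_filter, Finset.mem_biUnion]
    constructor
    · rintro ⟨⟨a', -, h2⟩, h3⟩
      rw [Finset.mem_image] at h2
      obtain ⟨b', hb', h4⟩ := h2
      rw [Prod.mk.injEq] at h4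
      obtain ⟨rfl, rfl⟩ := h4
      exact ⟨mem_support_iff.mp hb', h3⟩
    · rintro ⟨h1, h3⟩
      refine ⟨⟨a, ?_, ?_⟩, h3⟩
      · rw [mem_support_iff]
        intro h
        apply h1
        unfold cf
        simp only [h, coeff_zero]
      · rw [Finset.mem_image]
        exact ⟨b, mem_support_iff.mpr h1, rfl⟩
  obtain ⟨⟨a, b⟩, hab, hmax⟩ := S.exists_max_image (fun q => dg q.1 + dg q.2)
    ⟨(m, n), (hmem _).mpr ⟨hmn, hcon⟩⟩
  obtain ⟨hab1, hab2⟩ := (hmem _).mp hab
  simp only at hab1 hab2 hmax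
  have hb0 : b ≠ 0 := by
    rintro rfl
    have : wt w 0 = 0 := by simp [wt]
    rw [this, mul_zero] at hab2
    linarith
  have hQ : (0 : ℝ) < (p : ℝ) ^ (t + 1) := by positivity
  have hQb : p ^ (t + 1) • b ≠ 0 := by
    intro h
    have h1 := dg_smul (p ^ (t + 1)) b
    rw [h, show dg 0 = 0 from dg_eq_zero.mpr rfl] at h1
    rcases mul_eq_zero.mp h1.symm with h2 | h2
    · exact absurd h2 (by positivity)
    · exact hb0 (dg_eq_zero.mp h2)
  -- the coefficient in `W`
  have h1 : cf (p ^ (t + 1) • a) (p ^ (t + 1) • b) (dF p κ t G lam) = 0 := by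
    by_contra h0
    have h2 := hd _ (hF (p ^ (t + 1) • a)) (p ^ (t + 1) • b) (mem_support_iff.mpr h0)
    rw [wt_smul] at h2
    push_cast at h2
    linarith
  have h2 : cf (p ^ (t + 1) • a) (p ^ (t + 1) • b) (PP p κ t lam) = 0 := by
    have h3 : cf (p ^ (t + 1) • a) (p ^ (t + 1) • b) (C G) = 0 := by
      unfold cf
      rw [coeff_C]
      split_ifs
      · exact hred b hb0
      · exact coeff_zero _
    unfold dF at h1
    rw [cf_add, cf_sub, cf_sub, cf_sh, cf_cz _ hQb, h3, ← smul_add, hred (a + b), mul_zero,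
      sub_zero, sub_zero, zero_add] at h1
    · exact h1
    · intro h
      apply hb0
      rw [← dg_eq_zero] at h ⊢
      unfold dg at h ⊢
      simp only [Finsupp.add_apply] at h
      omega
  rw [cf_PP, Finset.sum_range_succ, cf_pow] at h2
  have h3 : ∑ i ∈ Finset.range t, κ i *
      cf (p ^ (t + 1) • a) (p ^ (t + 1) • b) (lam ^ p ^ (i + 1)) = 0 := by
    refine Finset.sum_eq_zero fun i hi => ?_
    rw [Finset.mem_range] at hi
    have h4 : ∀ m : Ex, p ^ (t + 1) • m = p ^ (i + 1) • (p ^ (t - i) • m) := by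
      intro m
      rw [smul_smul, ← pow_add]
      congr 2
      omega
    rw [h4, h4, cf_pow]
    by_cases h5 : cf (p ^ (t - i) • a) (p ^ (t - i) • b) lam = 0
    · rw [h5, zero_pow (by positivity), mul_zero]
    · exfalso
      have h6 : 1 < p ^ (t - i) := Nat.one_lt_pow (by omega) hp
      have h7 : (1 : ℝ) ≤ ((p ^ (t - i) : ℕ) : ℝ) := by exact_mod_cast h6.le
      have h8 := hmax (p ^ (t - i) • a, p ^ (t - i) • b) ((hmem _).mpr ⟨h5, by
        simp only
        rw [wt_smul]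
        have := wt_nonneg hw b
        have h9 : wt w b ≤ ((p ^ (t - i) : ℕ) : ℝ) * wt w b := by nlinarith
        nlinarith⟩)
      simp only [dg_smul] at h8
      have h9 : 0 < dg b := Nat.pos_of_ne_zero fun h => hb0 (dg_eq_zero.mp h)
      nlinarith
  rw [h3, zero_add, mul_eq_zero, or_iff_right hκ] at h2
  exact hab1 (eq_zero_of_pow_eq_zero h2)

theorem bn_coeff_eq_zero (hκ : κ t ≠ 0) (hν : 0 ≤ ν) (hw : ∀ i, 0 ≤ w i)
    (hF : ∀ m, coeff m (dF p κ t G lam) ∈ W)
    (hd : ∀ N ∈ W, ∀ n ∈ N.support, wt w n ≤ 2 * ν)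
    (hred : ∀ m : Ex, m ≠ 0 → coeff (p ^ (t + 1) • m) G = 0) {m n : Ex} (hm : m ≠ 0)
    (hn : 2 * ν < wt w n) : (bn m n : k) * coeff (m + n) G = 0 := by
  have hp : 1 < p := Nat.Prime.one_lt Fact.out
  have hn0 : n ≠ 0 := by
    rintro rfl
    have : wt w 0 = 0 := by simp [wt]
    rw [this] at hn
    linarith
  have h1 : cf m n (dF p κ t G lam) = 0 := by
    by_contra h0
    have h2 := hd _ (hF m) n (mem_support_iff.mpr h0)
    linarith
  unfold dF at h1
  rw [cf_add, cf_sub, cf_sub, cf_sh, cf_cz _ hn0, cf_C hm, sub_zero, sub_zero] at h1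
  have h2 : cf m n (PP p κ t lam) = 0 := by
    rw [cf_PP]
    refine Finset.sum_eq_zero fun i hi => ?_
    rw [Finset.mem_range] at hi
    by_cases h3 : cf m n (lam ^ p ^ (i + 1)) = 0
    · rw [h3, mul_zero]
    · exfalso
      obtain ⟨m', n', -, rfl, h4⟩ := exists_of_cf_pow h3
      have h5 := cf_lam_le hκ hν hw hF hd hred m' n' h4
      rw [wt_smul] at hn
      have h6 : ((p ^ (i + 1) : ℕ) : ℝ) ≤ (p : ℝ) ^ (t + 1) := by
        push_cast
        exact pow_le_pow_right₀ (by exact_mod_cast hp.le) (by omega)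
      have h7 := wt_nonneg hw n'
      nlinarith
  rw [h2, add_zero] at h1
  exact h1

end claim

end Pool.Agent.TWLY
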