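import Mathlib
import Pool.Agent.Lib.TWIV.JW

/-!
# Layer lemma, pure algebra I

Polynomials in two variables over a field, their translates, and the coefficients of `N (s + s')`.
-/

set_option autoImplicit false

namespace Pool.Agent.TWLY

open MvPolynomial
open TWIV.JW (BB sh cz)

/-- an exponent of a monomial in two variables -/
abbrev Ex := Fin 2 →₀ ℕ

/-- the exponent with given entries -/
noncomputable def mk (a b : ℕ) : Ex := Finsupp.single 0 a + Finsupp.single 1 b

@[simp] theorem mk_zero' (a b : ℕ) : mk a b 0 = a := by simp [mk]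

@[simp] theorem mk_one' (a b : ℕ) : mk a b 1 = b := by simp [mk]

theorem ex_ext {m n : Ex} (h0 : m 0 = n 0) (h1 : m 1 = n 1) : m = n := by
  ext i
  fin_cases i
  · exact h0
  · exact h1

theorem mk_eta (m : Ex) : mk (m 0) (m 1) = m := ex_ext (by simp) (by simp)

theorem mk_eq_iff {a b : ℕ} {m : Ex} : mk a b = m ↔ a = m 0 ∧ b = m 1 := by
  constructor
  · rintro rfl
    simp
  · rintro ⟨rfl, rfl⟩
    exact mk_eta m

/-- the binomial coefficient of a splitting -/
def bn (m n : Ex) : ℕ := (m 0 + n 0).choose (m 0) * (m 1 + n 1).choose (m 1)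

theorem bn_comm (m n : Ex) : bn m n = bn n m := by
  unfold bn
  rw [add_comm (m 0), add_comm (m 1), ← Nat.choose_symm_add, ← Nat.choose_symm_add]

section sh

variable {k : Type*} [CommRing k]

theorem sh_monomial (a b : ℕ) (c : k) :
    sh k (monomial (mk a b) c) = ∑ i ∈ Finset.range (a + 1), ∑ j ∈ Finset.range (b + 1),
      monomial (mk (a - i) (b - j)) (monomial (mk i j)
        (c * ((a.choose i * b.choose j : ℕ) : k))) := by
  have h1 : ∀ (l : Fin 2) (a : ℕ), (C (X l) + X l : BB (Fin 2) k) ^ a =
      ∑ i ∈ Finset.range (a + 1), monomial (Finsupp.single l (a - i))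
        (monomial (Finsupp.single l i) ((a.choose i : ℕ) : k)) := by
    intro l a
    rw [add_pow]
    refine Finset.sum_congr rfl fun i _ => ?_
    have e1 : (C (X l) : BB (Fin 2) k) ^ i = C (monomial (Finsupp.single l i) 1) := by
      rw [← C_pow, X_pow_eq_monomial]
    have e2 : (X l : BB (Fin 2) k) ^ (a - i) = monomial (Finsupp.single l (a - i)) 1 := by
      rw [X_pow_eq_monomial]
    have e3 : ((a.choose i : ℕ) : BB (Fin 2) k) = C (C ((a.choose i : ℕ) : k)) := by simp
    rw [e1, e2, e3, C_mul_monomial, mul_one, mul_comm, C_mul_monomial, C_mul_monomial, mul_one]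
  have h2 : monomial (mk a b) c = C c * (X 0 ^ a * X 1 ^ b : MvPolynomial (Fin 2) k) := by
    rw [X_pow_eq_monomial, X_pow_eq_monomial, monomial_mul, C_mul_monomial, mul_one, mul_one]
    rfl
  have h3 : sh k (C c : MvPolynomial (Fin 2) k) = C (C c) := by
    rw [← algebraMap_eq, AlgHom.commutes]
    rfl
  have h4 : ∀ l, sh k (X l : MvPolynomial (Fin 2) k) = C (X l) + X l := by
    intro l
    simp [sh]
  rw [h2, map_mul, map_mul, map_pow, map_pow, h3, h4, h4, h1, h1, Finset.sum_mul_sum,
    Finset.mul_sum]
  refine Finset.sum_congr rfl fun i _ => ?_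
  rw [Finset.mul_sum]
  refine Finset.sum_congr rfl fun j _ => ?_
  rw [monomial_mul, monomial_mul, C_mul_monomial, C_mul_monomial]
  push_cast
  rfl

/-- The coefficients of `N (s + s')`. -/
theorem coeff_sh (N : MvPolynomial (Fin 2) k) (m n : Ex) :
    coeff n (coeff m (sh k N)) = (bn m n : k) * coeff (m + n) N := by
  classical
  induction N using MvPolynomial.induction_on' with
  | monomial e c =>
    rw [← mk_eta e, sh_monomial, coeff_sum, coeff_sum]
    simp_rw [coeff_sum, coeff_monomial]
    by_cases h : m + n = e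
    · subst h
      rw [Finset.sum_eq_single (n 0), Finset.sum_eq_single (n 1)]
      · have h1 : mk ((m + n) 0 - n 0) ((m + n) 1 - n 1) = m := by
          rw [mk_eq_iff]
          simp
        rw [if_pos h1, coeff_monomial, if_pos (mk_eta n), if_pos (mk_eta (m + n)), mul_comm, bn_comm]
        congr 1
        unfold bn
        simp [add_comm]
      · intro j _ hj
        split_ifs with h2
        · rw [coeff_monomial, if_neg]
          rw [mk_eq_iff]
          rintro ⟨-, h3⟩
          exact hj h3
        · simp
      · intro hj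
        exact absurd (Finset.mem_range.mpr (by simp)) hj
      · intro i _ hi
        refine Finset.sum_eq_zero fun j _ => ?_
        split_ifs with h2
        · rw [coeff_monomial, if_neg]
          rw [mk_eq_iff]
          rintro ⟨h3, -⟩
          exact hi h3
        · simp
      · intro hj
        exact absurd (Finset.mem_range.mpr (by simp)) hj
    · rw [if_neg (by rw [mk_eta]; exact fun h' => h h'.symm), mul_zero]
      refine Finset.sum_eq_zero fun i hi => Finset.sum_eq_zero fun j hj => ?_
      split_ifs with h2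
      · rw [coeff_monomial, if_neg]
        intro h3
        apply h
        rw [mk_eq_iff] at h2 h3
        rw [Finset.mem_range] at hi hj
        refine ex_ext ?_ ?_
        · rw [Finsupp.add_apply]
          omega
        · rw [Finsupp.add_apply]
          omega
      · simp
  | add P Q hP hQ =>
    rw [map_add, coeff_add, coeff_add, coeff_add, hP, hQ, mul_add]

end sh

section ext

variable {k : Type*} [Field k] [Infinite k]

/-- A polynomial with coefficients in a vector space whose values lie in a subspace has its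
coefficients in this subspace. -/
theorem coeff_mem_of_eval {V : Submodule k (MvPolynomial (Fin 2) k)} (F : BB (Fin 2) k)
    (h : ∀ c : Fin 2 → k, eval (fun i => C (c i)) F ∈ V) (m : Ex) : coeff m F ∈ V := by
  classical
  by_contra hm
  obtain ⟨φ, hφ, hV⟩ := Submodule.exists_le_ker_of_notMem hm
  set G : MvPolynomial (Fin 2) k := ∑ n ∈ F.support, monomial n (φ (coeff n F)) with hG
  have h0 : G = 0 := by
    refine MvPolynomial.funext fun c => ?_
    have h1 : eval (fun i => C (c i)) F = ∑ n ∈ F.support, (∏ i, c i ^ n i) • coeff n F := by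
      rw [eval_eq']
      refine Finset.sum_congr rfl fun n _ => ?_
      rw [smul_eq_C_mul, mul_comm]
      simp
    have h2 : φ (eval (fun i => C (c i)) F) = 0 := hV (h c)
    rw [h1, map_sum] at h2
    rw [map_zero, ← h2, hG, map_sum]
    refine Finset.sum_congr rfl fun n _ => ?_
    rw [map_smul, eval_monomial, smul_eq_mul, mul_comm, Finsupp.prod_fintype _ _ (by simp)]
  have h3 : coeff m G = φ (coeff m F) := by
    rw [hG, coeff_sum]
    simp_rw [coeff_monomial]
    rw [Finset.sum_ite_eq']
    split_ifs with h4
    · rfl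
    · rw [notMem_support_iff.mp h4, map_zero]
  rw [h0, coeff_zero] at h3
  exact hφ h3.symm

end ext

section frob

variable {R σ : Type*} [CommRing R] (p : ℕ) [Fact p.Prime] [CharP R p]

theorem pow_eq_sum (f : MvPolynomial σ R) (i : ℕ) :
    f ^ p ^ i = ∑ m ∈ f.support, monomial (p ^ i • m) (coeff m f ^ p ^ i) := by
  conv_lhs => rw [f.as_sum]
  have : ExpChar R p := ExpChar.prime Fact.out
  rw [sum_pow_char_pow]
  refine Finset.sum_congr rfl fun m _ => ?_
  rw [monomial_pow]

theorem coeff_pow_smul (f : MvPolynomial σ R) (i : ℕ) (m : σ →₀ ℕ) :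
    coeff (p ^ i • m) (f ^ p ^ i) = coeff m f ^ p ^ i := by
  classical
  have hp : p ^ i ≠ 0 := pow_ne_zero _ (Nat.Prime.ne_zero Fact.out)
  rw [pow_eq_sum, coeff_sum]
  simp_rw [coeff_monomial]
  have h1 : ∀ x : σ →₀ ℕ, p ^ i • x = p ^ i • m ↔ x = m := fun x =>
    ⟨fun h => by
      ext j
      have h' := DFunLike.congr_fun h j
      rw [Finsupp.smul_apply, Finsupp.smul_apply, smul_eq_mul, smul_eq_mul] at h'
      exact Nat.eq_of_mul_eq_mul_left (Nat.pos_of_ne_zero hp) h', fun h => by rw [h]⟩
  simp_rw [h1]
  rw [Finset.sum_ite_eq']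
  split_ifs with h2
  · rfl
  · rw [notMem_support_iff.mp h2, zero_pow hp]

theorem exists_of_coeff_pow (f : MvPolynomial σ R) (i : ℕ) {e : σ →₀ ℕ}
    (he : coeff e (f ^ p ^ i) ≠ 0) : ∃ m, e = p ^ i • m ∧ coeff m f ≠ 0 := by
  classical
  rw [pow_eq_sum, coeff_sum] at he
  obtain ⟨m, hm, h1⟩ := Finset.exists_ne_zero_of_sum_ne_zero he
  rw [coeff_monomial] at h1
  split_ifs at h1 with h2
  · exact ⟨m, h2.symm, mem_support_iff.mp hm⟩
  · exact absurd rfl h1

end frob

section tr

variable {k : Type*} [Field k]

/-- translate of a polynomial -/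
noncomputable def tr (c : Fin 2 → k) : MvPolynomial (Fin 2) k →ₐ[k] MvPolynomial (Fin 2) k :=
  aeval (fun i => X i + C (c i))

/-- evaluation of the outer variables at constants -/
noncomputable def evc (c : Fin 2 → k) : BB (Fin 2) k →+* MvPolynomial (Fin 2) k :=
  eval (fun i => C (c i))

theorem evc_C (c : Fin 2 → k) (f : MvPolynomial (Fin 2) k) : evc c (C f) = f := by
  simp [evc]

theorem evc_cz (c : Fin 2 → k) (f : MvPolynomial (Fin 2) k) :
    evc c (cz k f) = C (eval c f) := by
  induction f using MvPolynomial.induction_on with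
  | C a =>
    have : cz k (C a : MvPolynomial (Fin 2) k) = C (C a) := by
      rw [← algebraMap_eq, AlgHom.commutes]
      rfl
    rw [this, evc_C]
    simp
  | add f g hf hg => rw [map_add, map_add, hf, hg, map_add, C_add]
  | mul_X f i hf =>
    rw [map_mul, map_mul, hf, map_mul, C_mul]
    simp [cz, evc]

theorem evc_sh (c : Fin 2 → k) (f : MvPolynomial (Fin 2) k) : evc c (sh k f) = tr c f := by
  induction f using MvPolynomial.induction_on with
  | C a =>
    have : sh k (C a : MvPolynomial (Fin 2) k) = C (C a) := by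
      rw [← algebraMap_eq, AlgHom.commutes]
      rfl
    rw [this, evc_C, ← algebraMap_eq, AlgHom.commutes]
  | add f g hf hg => rw [map_add, map_add, hf, hg, map_add]
  | mul_X f i hf =>
    rw [map_mul, map_mul, hf, map_mul]
    simp [sh, evc, tr]

theorem eval_tr (c s : Fin 2 → k) (f : MvPolynomial (Fin 2) k) :
    eval s (tr c f) = eval (s + c) f := by
  have h : (aeval s : MvPolynomial (Fin 2) k →ₐ[k] k).comp (tr c) = aeval (s + c) := by
    apply MvPolynomial.algHom_ext
    intro i
    simp [tr]
  have := DFunLike.congr_fun h f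
  simpa [aeval_eq_eval] using this

end tr

end Pool.Agent.TWLY
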