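import Mathlib
import Pool.Agent.Lib.TWLY.A
import Pool.Agent.Lib.D2.Ctx0
import Pool.Agent.Lib.TWM.A1

/-!
# Layer lemma II: additive polynomials, reduction, weights
-/

set_option autoImplicit false

namespace Pool.Agent.TWLY

open MvPolynomial
open TWIV.JW (BB sh cz)
open Pool.Agent.H15JM (RVal)
open Pool.Agent.LU1 (VPos)
open Pool.Agent.D2 (Ctx0)
open Pool.Agent.TWM (Gt)

/-! ## additive polynomials in one letter -/

section PP

variable {k : Type*} [Field k] (p : ℕ) (κ : ℕ → k) (t : ℕ)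

/-- the additive polynomial with coefficients `κ i` at `p ^ (i + 1)` -/
noncomputable def PP {A : Type*} [CommRing A] [Algebra k A] (y : A) : A :=
  ∑ i ∈ Finset.range (t + 1), algebraMap k A (κ i) * y ^ p ^ (i + 1)

variable {p κ t} {A B : Type*} [CommRing A] [Algebra k A] [CommRing B] [Algebra k B]

theorem PP_map (φ : A →ₐ[k] B) (y : A) : φ (PP p κ t y) = PP p κ t (φ y) := by
  unfold PP
  rw [map_sum]
  refine Finset.sum_congr rfl fun i _ => ?_
  rw [map_mul, map_pow, AlgHom.commutes]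

variable [Fact p.Prime]

theorem PP_add [CharP A p] (y y' : A) : PP p κ t (y + y') = PP p κ t y + PP p κ t y' := by
  unfold PP
  rw [← Finset.sum_add_distrib]
  refine Finset.sum_congr rfl fun i _ => ?_
  have : ExpChar A p := ExpChar.prime Fact.out
  rw [add_pow_expChar_pow, mul_add]

theorem PP_sub [CharP A p] (y y' : A) : PP p κ t (y - y') = PP p κ t y - PP p κ t y' := by
  unfold PP
  rw [← Finset.sum_sub_distrib]
  refine Finset.sum_congr rfl fun i _ => ?_
  have : ExpChar A p := ExpChar.prime Fact.out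
  rw [sub_pow_expChar_pow, mul_sub]

theorem PP_zero : PP p κ t (0 : A) = 0 := by
  unfold PP
  refine Finset.sum_eq_zero fun i _ => ?_
  rw [zero_pow (pow_ne_zero _ (Nat.Prime.ne_zero Fact.out)), mul_zero]

end PP

/-! ## coefficients of `PP` -/

section cf

variable {k : Type*} [Field k] {p : ℕ} [Fact p.Prime] [CharP k p] {κ : ℕ → k} {t : ℕ}

/-- coefficient of a polynomial in two sets of variables, outer exponent first -/
noncomputable def cf (m n : Ex) (F : BB (Fin 2) k) : k := coeff n (coeff m F)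

theorem cf_add (m n : Ex) (F F' : BB (Fin 2) k) : cf m n (F + F') = cf m n F + cf m n F' := by
  unfold cf
  rw [coeff_add, coeff_add]

theorem cf_sub (m n : Ex) (F F' : BB (Fin 2) k) : cf m n (F - F') = cf m n F - cf m n F' := by
  unfold cf
  rw [coeff_sub, coeff_sub]

theorem cf_sh (m n : Ex) (f : MvPolynomial (Fin 2) k) :
    cf m n (sh k f) = (bn m n : k) * coeff (m + n) f := coeff_sh f m n

theorem cf_C {m : Ex} (hm : m ≠ 0) (n : Ex) (f : MvPolynomial (Fin 2) k) :
    cf m n (C f) = 0 := by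
  unfold cf
  rw [coeff_C, if_neg (Ne.symm hm), coeff_zero]

theorem cz_eq_map (f : MvPolynomial (Fin 2) k) : cz k f = MvPolynomial.map (C : k →+* _) f := by
  induction f using MvPolynomial.induction_on with
  | C a =>
    rw [← algebraMap_eq, AlgHom.commutes, algebraMap_eq, map_C]
    rfl
  | add f g hf hg => rw [map_add, map_add, hf, hg]
  | mul_X f i hf =>
    rw [map_mul, map_mul, hf, map_X]
    simp [cz]

theorem coeff_cz (m : Ex) (f : MvPolynomial (Fin 2) k) : coeff m (cz k f) = C (coeff m f) := by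
  rw [cz_eq_map, coeff_map]

theorem cf_cz (m : Ex) {n : Ex} (hn : n ≠ 0) (f : MvPolynomial (Fin 2) k) :
    cf m n (cz k f) = 0 := by
  unfold cf
  rw [coeff_cz, coeff_C, if_neg (Ne.symm hn)]

theorem cf_pow (m n : Ex) (F : BB (Fin 2) k) (i : ℕ) :
    cf (p ^ i • m) (p ^ i • n) (F ^ p ^ i) = cf m n F ^ p ^ i := by
  unfold cf
  rw [coeff_pow_smul, coeff_pow_smul]

theorem exists_of_cf_pow {m n : Ex} {F : BB (Fin 2) k} {i : ℕ}
    (h : cf m n (F ^ p ^ i) ≠ 0) :
    ∃ m' n', m = p ^ i • m' ∧ n = p ^ i • n' ∧ cf m' n' F ≠ 0 := by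
  unfold cf at h
  have h1 : coeff m (F ^ p ^ i) ≠ 0 := fun h0 => h (by rw [h0, coeff_zero])
  obtain ⟨m', hm', -⟩ := exists_of_coeff_pow p F i h1
  subst hm'
  rw [coeff_pow_smul] at h
  obtain ⟨n', hn', h2⟩ := exists_of_coeff_pow p _ i h
  exact ⟨m', n', rfl, hn', h2⟩

theorem cf_PP (m n : Ex) (F : BB (Fin 2) k) :
    cf m n (PP p κ t F) = ∑ i ∈ Finset.range (t + 1), κ i * cf m n (F ^ p ^ (i + 1)) := by
  unfold cf PP
  rw [coeff_sum, coeff_sum]
  refine Finset.sum_congr rfl fun i _ => ?_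
  have : algebraMap k (BB (Fin 2) k) (κ i) = C (C (κ i)) := rfl
  rw [this, coeff_C_mul, coeff_C_mul]

theorem coeff_PP (m : Ex) (f : MvPolynomial (Fin 2) k) :
    coeff m (PP p κ t f) = ∑ i ∈ Finset.range (t + 1), κ i * coeff m (f ^ p ^ (i + 1)) := by
  unfold PP
  rw [coeff_sum]
  refine Finset.sum_congr rfl fun i _ => ?_
  rw [algebraMap_eq, coeff_C_mul]

end cf

/-! ## the reduction of an effect -/

section red

variable {k : Type*} [Field k] [IsAlgClosed k] {p : ℕ} [Fact p.Prime] [CharP k p] {κ : ℕ → k}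
  {t : ℕ}

/-- the degree of an exponent -/
def dg (m : Ex) : ℕ := m 0 + m 1

theorem dg_smul (a : ℕ) (m : Ex) : dg (a • m) = a * dg m := by
  unfold dg
  simp [mul_add]

theorem dg_eq_zero {m : Ex} : dg m = 0 ↔ m = 0 := by
  unfold dg
  constructor
  · intro h
    exact ex_ext (by simp; omega) (by simp; omega)
  · rintro rfl
    simp

/-- One step of the reduction. -/
theorem red_step (hκ : κ t ≠ 0) (n : ℕ) (G : MvPolynomial (Fin 2) k)
    (hG : ∀ m : Ex, m ≠ 0 → n < dg m → coeff (p ^ (t + 1) • m) G = 0) (hn : n ≠ 0) :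
    ∃ f : MvPolynomial (Fin 2) k, constantCoeff f = 0 ∧
      ∀ m : Ex, m ≠ 0 → n - 1 < dg m → coeff (p ^ (t + 1) • m) (G + PP p κ t f) = 0 := by
  classical
  have hp : 1 < p := Nat.Prime.one_lt Fact.out
  have hp0 : 0 < p := by omega
  -- the root
  have hroot : ∀ a : k, ∃ b : k, κ t * b ^ p ^ (t + 1) = - a := by
    intro a
    obtain ⟨b, hb⟩ := IsAlgClosed.exists_pow_nat_eq (-a / κ t) (pow_pos hp0 (t + 1))
    exact ⟨b, by rw [hb]; field_simp⟩
  choose rt hrt using hroot
  have hrt0 : rt 0 = 0 := by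
    have h := hrt 0
    rw [neg_zero, mul_eq_zero, or_iff_right hκ] at h
    exact eq_zero_of_pow_eq_zero h
  set S : Finset Ex := (Finset.range (n + 1)).image (fun i => mk i (n - i)) with hS
  have hmemS : ∀ m : Ex, m ∈ S ↔ dg m = n := by
    intro m
    rw [hS, Finset.mem_image]
    constructor
    · rintro ⟨i, hi, rfl⟩
      rw [Finset.mem_range] at hi
      unfold dg
      simp
      omega
    · intro h
      refine ⟨m 0, ?_, ?_⟩
      · rw [Finset.mem_range]
        unfold dg at h
        omega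
      · rw [mk_eq_iff]
        unfold dg at h
        omega
  set f : MvPolynomial (Fin 2) k := ∑ m ∈ S, monomial m (rt (coeff (p ^ (t + 1) • m) G)) with hf
  have hcf : ∀ m : Ex, coeff m f = if dg m = n then rt (coeff (p ^ (t + 1) • m) G) else 0 := by
    intro m
    rw [hf, coeff_sum]
    simp_rw [coeff_monomial]
    rw [Finset.sum_ite_eq']
    simp_rw [hmemS]
  refine ⟨f, ?_, ?_⟩
  · rw [constantCoeff_eq, hcf, if_neg]
    intro h
    apply hn
    rw [← h]
    simp [dg]
  · intro m hm hnm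
    have hdm : dg m ≠ 0 := fun h => hm (dg_eq_zero.mp h)
    rw [coeff_add, coeff_PP, Finset.sum_range_succ]
    have h1 : ∑ i ∈ Finset.range t, κ i * coeff (p ^ (t + 1) • m) (f ^ p ^ (i + 1)) = 0 := by
      refine Finset.sum_eq_zero fun i hi => ?_
      rw [Finset.mem_range] at hi
      have h2 : p ^ (t + 1) • m = p ^ (i + 1) • (p ^ (t - i) • m) := by
        rw [smul_smul, ← pow_add]
        congr 2
        omega
      rw [h2, coeff_pow_smul, hcf, if_neg, zero_pow (by positivity), mul_zero]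
      rw [dg_smul]
      intro h3
      have h4 : 1 < p ^ (t - i) := Nat.one_lt_pow (by omega) hp
      have h5 : dg m < p ^ (t - i) * dg m := by
        nlinarith [Nat.pos_of_ne_zero hdm]
      omega
    rw [h1, zero_add, coeff_pow_smul, hcf]
    split_ifs with h6
    · rw [hrt]
      ring
    · rw [zero_pow (by positivity), mul_zero, add_zero]
      exact hG m hm (by omega)

/-- All monomials whose exponent is divisible by `p ^ (t + 1)` can be absorbed. -/
theorem exists_red (hκ : κ t ≠ 0) (G : MvPolynomial (Fin 2) k) :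
    ∃ f : MvPolynomial (Fin 2) k, constantCoeff f = 0 ∧
      ∀ m : Ex, m ≠ 0 → coeff (p ^ (t + 1) • m) (G + PP p κ t f) = 0 := by
  classical
  have hp0 : 0 < p := Nat.Prime.pos Fact.out
  -- a bound
  have hB : ∃ n : ℕ, ∀ m : Ex, m ≠ 0 → n < dg m → coeff (p ^ (t + 1) • m) G = 0 := by
    refine ⟨∑ e ∈ G.support, dg e, fun m hm hn => ?_⟩
    by_contra h0
    have h1 : dg (p ^ (t + 1) • m) ≤ ∑ e ∈ G.support, dg e :=
      Finset.single_le_sum (f := dg) (fun _ _ => Nat.zero_le _) (mem_support_iff.mpr h0)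
    rw [dg_smul] at h1
    have h2 : 1 ≤ p ^ (t + 1) := Nat.one_le_pow _ _ hp0
    nlinarith
  obtain ⟨n, hn⟩ := hB
  induction n generalizing G with
  | zero =>
    refine ⟨0, by simp, fun m hm => ?_⟩
    rw [PP_zero, add_zero]
    exact hn m hm (Nat.pos_of_ne_zero fun h => hm (dg_eq_zero.mp h))
  | succ n ih =>
    obtain ⟨f, hf, h1⟩ := red_step hκ (n + 1) G hn (by omega)
    obtain ⟨g, hg, h2⟩ := ih (G + PP p κ t f) (fun m hm h => h1 m hm (by omega))
    refine ⟨f + g, by rw [map_add, hf, hg, add_zero], fun m hm => ?_⟩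
    rw [PP_add, ← add_assoc]
    exact h2 m hm

end red

end Pool.Agent.TWLY
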