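import Pool.Agent.Lib.TWLY.D

/-!
# Layer lemma V: the degree lemma
-/

set_option autoImplicit false

namespace Pool.Agent.TWLY

open MvPolynomial
open TWIV.JW (BB sh cz)
open Pool.Agent.H15JM (RVal)
open Pool.Agent.LU1 (VPos)
open Pool.Agent.D2 (Ctx0)
open Pool.Agent.TWM (Gt)

universe u

/-! ## leading forms -/

section lead

variable {k Ω : Type u} [Field k] [Field Ω] [Algebra k Ω] {v : RVal Ω}

/-- value of the part of weight `d` at a point over `k` -/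
noncomputable def tp (w : Fin 2 → ℝ) (P : Fin 2 → k) (d : ℝ) (N : MvPolynomial (Fin 2) k) : k :=
  ∑ m ∈ N.support with wt w m = d, coeff m N * (P 0 ^ m 0 * P 1 ^ m 1)

theorem pow_sub_pos (hk : Ctx0 k v) {y : Ω} {P : k} (h : VPos v (y - algebraMap k Ω P)) (n : ℕ) :
    VPos v (y ^ n - algebraMap k Ω P ^ n) := by
  have hy : v.Ge 0 y := by
    have h1 : y = (y - algebraMap k Ω P) + algebraMap k Ω P := by ring
    rw [h1]
    exact RVal.Ge.add (fun h0 => (h h0).le) (hk.ge P)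
  have h1 : y ^ n - algebraMap k Ω P ^ n = (y - algebraMap k Ω P) *
      ∑ i ∈ Finset.range n, y ^ i * algebraMap k Ω P ^ (n - 1 - i) := by
    rw [mul_comm, (Commute.all _ _).geom_sum₂_mul]
  rw [h1]
  have h2 : v.Ge 0 (∑ i ∈ Finset.range n, y ^ i * algebraMap k Ω P ^ (n - 1 - i)) := by
    refine RVal.Ge.sum _ _ fun i _ => ?_
    have h3 := (TWM.ge_pow hy i).mul (TWM.ge_pow (hk.ge P) (n - 1 - i))
    exact h3.mono (by simp)
  have h3 := Gt.mul_ge (v := v) (r := 0) (r' := 0) h h2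
  rw [add_zero] at h3
  exact h3

theorem mul_sub_pos {y y' : Ω} {a b : Ω} (ha : v.Ge 0 a) (hy' : v.Ge 0 y')
    (h : VPos v (y - a)) (h' : VPos v (y' - b)) : VPos v (y * y' - a * b) := by
  have h1 : y * y' - a * b = (y - a) * y' + (y' - b) * a := by ring
  rw [h1]
  have h2 := Gt.mul_ge (v := v) (r := 0) (r' := 0) h hy'
  have h3 := Gt.mul_ge (v := v) (r := 0) (r' := 0) h' ha
  rw [add_zero] at h2 h3
  exact Gt.add h2 h3

/-- The leading form determines the polynomial up to smaller terms. -/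
theorem gt_lead (hk : Ctx0 k v) {x θ u : Fin 2 → Ω} {P : Fin 2 → k} {w : Fin 2 → ℝ}
    (hθ : ∀ i, v.Ge (-w i) (θ i)) (hxu : ∀ i, x i = θ i * u i)
    (hu : ∀ i, VPos v (u i - algebraMap k Ω (P i))) (N : MvPolynomial (Fin 2) k) {d : ℝ}
    (hd : ∀ m ∈ N.support, wt w m ≤ d) {T : Ω}
    (hT : ∀ m ∈ N.support, wt w m = d → θ 0 ^ m 0 * θ 1 ^ m 1 = T) :
    Gt v (-d) (aeval x N - algebraMap k Ω (tp w P d N) * T) := by
  classical
  have hu0 : ∀ i, v.Ge 0 (u i) := by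
    intro i
    have h1 : u i = (u i - algebraMap k Ω (P i)) + algebraMap k Ω (P i) := by ring
    rw [h1]
    exact RVal.Ge.add (fun h0 => (hu i h0).le) (hk.ge _)
  have h1 : algebraMap k Ω (tp w P d N) * T = ∑ m ∈ N.support,
      if wt w m = d then algebraMap k Ω (coeff m N) *
        (algebraMap k Ω (P 0) ^ m 0 * algebraMap k Ω (P 1) ^ m 1) * T else 0 := by
    unfold tp
    rw [Finset.sum_filter, map_sum, Finset.sum_mul]
    refine Finset.sum_congr rfl fun m _ => ?_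
    split_ifs
    · simp
    · simp
  rw [h1, aeval_def, eval₂_eq', ← Finset.sum_sub_distrib]
  refine Gt.sum _ _ fun m hm => ?_
  have hθm : v.Ge (-wt w m) (θ 0 ^ m 0 * θ 1 ^ m 1) := by
    refine ((TWM.ge_pow (hθ 0) (m 0)).mul (TWM.ge_pow (hθ 1) (m 1))).mono ?_
    unfold wt
    linarith
  rw [Fin.prod_univ_two, hxu, hxu, mul_pow, mul_pow]
  split_ifs with h2
  · rw [← hT m hm h2]
    have h3 : VPos v (u 0 ^ m 0 * u 1 ^ m 1 - algebraMap k Ω (P 0) ^ m 0 *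
        algebraMap k Ω (P 1) ^ m 1) := by
      refine mul_sub_pos ?_ ?_ (pow_sub_pos hk (hu 0) _) (pow_sub_pos hk (hu 1) _)
      · exact (TWM.ge_pow (hk.ge _) _).mono (by simp)
      · exact (TWM.ge_pow (hu0 1) _).mono (by simp)
    have h4 : algebraMap k Ω (coeff m N) * (θ 0 ^ m 0 * u 0 ^ m 0 * (θ 1 ^ m 1 * u 1 ^ m 1)) -
        algebraMap k Ω (coeff m N) * (algebraMap k Ω (P 0) ^ m 0 *
          algebraMap k Ω (P 1) ^ m 1) * (θ 0 ^ m 0 * θ 1 ^ m 1) =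
        (u 0 ^ m 0 * u 1 ^ m 1 - algebraMap k Ω (P 0) ^ m 0 * algebraMap k Ω (P 1) ^ m 1) *
          (algebraMap k Ω (coeff m N) * (θ 0 ^ m 0 * θ 1 ^ m 1)) := by ring
    rw [h4]
    have h5 := Gt.mul_ge (v := v) (r := 0) h3 ((hk.ge (coeff m N)).mul hθm)
    refine h5.mono ?_
    linarith
  · have h3 : wt w m < d := lt_of_le_of_ne (hd m hm) h2
    rw [sub_zero]
    have h4 : algebraMap k Ω (coeff m N) * (θ 0 ^ m 0 * u 0 ^ m 0 * (θ 1 ^ m 1 * u 1 ^ m 1)) =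
        algebraMap k Ω (coeff m N) * ((u 0 ^ m 0 * u 1 ^ m 1) * (θ 0 ^ m 0 * θ 1 ^ m 1)) := by
      ring
    rw [h4]
    have h5 := (hk.ge (coeff m N)).mul
      (((TWM.ge_pow (hu0 0) (m 0)).mul (TWM.ge_pow (hu0 1) (m 1))).mul hθm)
    refine Gt.of_ge h5 ?_
    simp only [mul_zero, zero_add]
    linarith

theorem v_lead (hk : Ctx0 k v) {x θ u : Fin 2 → Ω} {P : Fin 2 → k} {w : Fin 2 → ℝ}
    (hθ : ∀ i, v.Ge (-w i) (θ i)) (hxu : ∀ i, x i = θ i * u i)
    (hu : ∀ i, VPos v (u i - algebraMap k Ω (P i))) (N : MvPolynomial (Fin 2) k) {d : ℝ}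
    (hd : ∀ m ∈ N.support, wt w m ≤ d) {T : Ω}
    (hT : ∀ m ∈ N.support, wt w m = d → θ 0 ^ m 0 * θ 1 ^ m 1 = T) (hT0 : T ≠ 0)
    (hTv : v T = -d) (htp : tp w P d N ≠ 0) :
    aeval x N ≠ 0 ∧ v (aeval x N) = -d := by
  have h1 := gt_lead hk hθ hxu hu N hd hT
  have h2 : algebraMap k Ω (tp w P d N) ≠ 0 := by simpa using htp
  have h3 : algebraMap k Ω (tp w P d N) * T ≠ 0 := mul_ne_zero h2 hT0
  have h4 : v (algebraMap k Ω (tp w P d N) * T) = -d := by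
    rw [v.map_mul h2 hT0, hk.triv _ htp, hTv, zero_add]
  have h5 : Gt v (v (algebraMap k Ω (tp w P d N) * T))
      (algebraMap k Ω (tp w P d N) * T - aeval x N) := by
    rw [h4]
    exact h1.sub_comm'
  obtain ⟨h6, h7⟩ := h5.val_eq h3
  exact ⟨h6, by rw [h7, h4]⟩

/-- A polynomial with one leading monomial has the expected size. -/
theorem v_unique (hk : Ctx0 k v) {x : Fin 2 → Ω} {w : Fin 2 → ℝ} (hx0 : ∀ i, x i ≠ 0)
    (hxv : ∀ i, v (x i) = -w i) (N : MvPolynomial (Fin 2) k) {m₀ : Ex}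
    (hm₀ : m₀ ∈ N.support) (hlt : ∀ m ∈ N.support, m ≠ m₀ → wt w m < wt w m₀) :
    aeval x N ≠ 0 ∧ v (aeval x N) = -wt w m₀ := by
  classical
  have huniq : ∀ m ∈ N.support, wt w m = wt w m₀ → m = m₀ := by
    intro m hm h
    by_contra hne
    have := hlt m hm hne
    linarith
  refine v_lead (θ := x) (u := fun _ => 1) (P := fun _ => 1) (w := w)
    (T := x 0 ^ m₀ 0 * x 1 ^ m₀ 1) hk ?_ ?_ ?_ N ?_ ?_ ?_ ?_ ?_
  · intro i _
    rw [hxv]
  · intro i
    rw [mul_one]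
  · intro i
    rw [map_one, sub_self]
    exact fun h => absurd rfl h
  · intro m hm
    by_cases h : m = m₀
    · rw [h]
    · exact (hlt m hm h).le
  · intro m hm h
    rw [huniq m hm h]
  · exact mul_ne_zero (pow_ne_zero _ (hx0 0)) (pow_ne_zero _ (hx0 1))
  · rw [v.map_mul (pow_ne_zero _ (hx0 0)) (pow_ne_zero _ (hx0 1)), v.map_pow (hx0 0),
      v.map_pow (hx0 1), hxv, hxv]
    unfold wt
    ring
  · unfold tp
    rw [Finset.sum_eq_single m₀]
    · simpa using hm₀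
    · intro m hm hne
      rw [Finset.mem_filter] at hm
      exact absurd (huniq m hm.1 hm.2) hne
    · intro h
      exact absurd (Finset.mem_filter.mpr
        (⟨hm₀, rfl⟩ : m₀ ∈ N.support ∧ wt w m₀ = wt w m₀)) h

end lead

/-! ## the weighted additive relation -/

section zeta

variable {k : Type u} [Field k] [IsAlgClosed k] {p : ℕ} [Fact p.Prime] [CharP k p]

theorem neg_one_pow_p (j : ℕ) : (-1 : k) ^ p ^ j = -1 := by
  have : ExpChar k p := ExpChar.prime Fact.out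
  have h := iterateFrobenius_def (R := k) p j (-1)
  rw [← h, map_neg, map_one]

theorem exists_root_of_not_dvd {a b : ℕ} (ha : ¬ p ∣ a) (ha0 : a ≠ 0) (hab : ¬ a ∣ b) :
    ∃ ζ : k, ζ ^ a = -1 ∧ ζ ^ b ≠ -1 := by
  have hne : NeZero (a : k) := ⟨fun h => ha ((CharP.cast_eq_zero_iff k p a).mp h)⟩
  obtain ⟨ε, hε⟩ := HasEnoughRootsOfUnity.exists_primitiveRoot k a
  obtain ⟨ζ, hζ⟩ := IsAlgClosed.exists_pow_nat_eq (-1 : k) (Nat.pos_of_ne_zero ha0)
  by_cases h : ζ ^ b = -1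
  · refine ⟨ζ * ε, ?_, ?_⟩
    · rw [mul_pow, hζ, hε.pow_eq_one, mul_one]
    · rw [mul_pow, h]
      intro h1
      have h2 : ε ^ b = 1 := by
        have : (-1 : k) * ε ^ b = -1 * 1 := by rw [h1, mul_one]
        exact mul_left_cancel₀ (neg_ne_zero.mpr one_ne_zero) this
      exact hab ((hε.pow_eq_one_iff_dvd b).mp h2)
  · exact ⟨ζ, hζ, h⟩

theorem exists_zeta {n₀ n₁ : ℕ} (h0 : n₀ ≠ 0) (h1 : n₁ ≠ 0) (h01 : ∀ a, n₀ ≠ p ^ a * n₁)
    (h10 : ∀ a, n₁ ≠ p ^ a * n₀) :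
    (∃ ζ : k, ζ ^ n₀ = -1 ∧ ζ ^ n₁ ≠ -1) ∨ (∃ ζ : k, ζ ^ n₁ = -1 ∧ ζ ^ n₀ ≠ -1) := by
  have hp : 1 < p := Nat.Prime.one_lt Fact.out
  obtain ⟨i, a, ha, rfl⟩ := Nat.exists_eq_pow_mul_and_not_dvd h0 p hp.ne'
  obtain ⟨j, b, hb, rfl⟩ := Nat.exists_eq_pow_mul_and_not_dvd h1 p hp.ne'
  have ha0 : a ≠ 0 := by rintro rfl; simp at h0
  have hb0 : b ≠ 0 := by rintro rfl; simp at h1
  have hab : a ≠ b := by
    rintro rfl
    rcases le_total i j with hij | hij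
    · apply h10 (j - i)
      rw [← mul_assoc, ← pow_add, Nat.sub_add_cancel hij]
    · apply h01 (i - j)
      rw [← mul_assoc, ← pow_add, Nat.sub_add_cancel hij]
  have key : ∀ (ζ : k) (i a : ℕ), ζ ^ (p ^ i * a) = -1 ↔ ζ ^ a = -1 := by
    intro ζ i a
    have : ExpChar k p := ExpChar.prime Fact.out
    rw [mul_comm, pow_mul]
    constructor
    · intro h
      have h2 : iterateFrobenius k p i (ζ ^ a) = iterateFrobenius k p i (-1) := by
        rw [iterateFrobenius_def, iterateFrobenius_def, h, neg_one_pow_p]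
      exact (iterateFrobenius k p i).injective h2
    · intro h
      rw [h, neg_one_pow_p]
  by_cases hd : a ∣ b
  · have hd' : ¬ b ∣ a := fun h => hab (Nat.dvd_antisymm hd h)
    obtain ⟨ζ, h2, h3⟩ := exists_root_of_not_dvd (k := k) hb hb0 hd'
    exact Or.inr ⟨ζ, (key ζ j b).mpr h2, fun h => h3 ((key ζ i a).mp h)⟩
  · obtain ⟨ζ, h2, h3⟩ := exists_root_of_not_dvd (k := k) ha ha0 hd
    exact Or.inl ⟨ζ, (key ζ i a).mpr h2, fun h => h3 ((key ζ j b).mp h)⟩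

end zeta

end Pool.Agent.TWLY
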