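import Pool.Agent.Lib.TWLY.E

/-!
# Layer lemma VI: the degree lemma, commensurable weights
-/

set_option autoImplicit false

namespace Pool.Agent.TWLY

open MvPolynomial
open TWIV.JW (BB sh cz ev2 ev2_sh)
open Pool.Agent.H15JM (RVal)
open Pool.Agent.LU1 (VPos)
open Pool.Agent.D2 (Ctx0)
open Pool.Agent.TWM (Gt)

universe u

section rel

variable {k : Type*} [Field k]

theorem sum_ne_zero {ι : Type*} (S : Finset ι) (hS : S.Nonempty) (c : ι → k)
    (hc : ∀ m ∈ S, c m ≠ 0) (A B : ι → ℕ) (hA : Set.InjOn A S) (a b : Polynomial k)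
    (ha : a ≠ 0) {ζ : k} (haζ : a.eval ζ = 0) (hbζ : b.eval ζ ≠ 0) :
    ∑ m ∈ S, Polynomial.C (c m) * (a ^ A m * b ^ B m) ≠ 0 := by
  classical
  obtain ⟨m₀, hm₀, hmin⟩ := S.exists_min_image A hS
  intro h
  have h1 : ∑ m ∈ S, Polynomial.C (c m) * (a ^ A m * b ^ B m) =
      a ^ A m₀ * ∑ m ∈ S, Polynomial.C (c m) * (a ^ (A m - A m₀) * b ^ B m) := by
    rw [Finset.mul_sum]
    refine Finset.sum_congr rfl fun m hm => ?_
    have h2 : a ^ A m = a ^ A m₀ * a ^ (A m - A m₀) := by
      rw [← pow_add, Nat.add_sub_cancel' (hmin m hm)]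
    rw [h2]
    ring
  rw [h1, mul_eq_zero, or_iff_right (pow_ne_zero _ ha)] at h
  have h2 := congrArg (Polynomial.eval ζ) h
  rw [Polynomial.eval_finset_sum, Polynomial.eval_zero, Finset.sum_eq_single m₀] at h2
  · simp only [Nat.sub_self, pow_zero, one_mul, Polynomial.eval_mul, Polynomial.eval_C,
      Polynomial.eval_pow] at h2
    exact mul_ne_zero (hc m₀ hm₀) (pow_ne_zero _ hbζ) h2
  · intro m hm hne
    have h3 : A m - A m₀ ≠ 0 := by
      have h4 := hmin m hm
      have h5 : A m ≠ A m₀ := fun h => hne (hA hm hm₀ h)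
      omega
    simp only [Polynomial.eval_mul, Polynomial.eval_C, Polynomial.eval_pow, haζ]
    rw [zero_pow h3]
    ring
  · intro h3
    exact absurd hm₀ h3

/-- integral weight -/
def nn (n : Fin 2 → ℕ) (m : Ex) : ℕ := n 0 * m 0 + n 1 * m 1

theorem nn_add (n : Fin 2 → ℕ) (a b : Ex) : nn n (a + b) = nn n a + nn n b := by
  unfold nn
  simp only [Finsupp.add_apply]
  ring

/-- a box of exponents -/
noncomputable def box (D : ℕ) : Finset Ex :=
  ((Finset.range (D + 1)) ×ˢ (Finset.range (D + 1))).image fun q => mk q.1 q.2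

theorem mem_box {D : ℕ} {m : Ex} : m ∈ box D ↔ m 0 ≤ D ∧ m 1 ≤ D := by
  unfold box
  rw [Finset.mem_image]
  constructor
  · rintro ⟨⟨a, b⟩, hab, rfl⟩
    rw [Finset.mem_product, Finset.mem_range, Finset.mem_range] at hab
    simp only [mk_zero', mk_one'] at hab ⊢
    omega
  · rintro ⟨h0, h1⟩
    refine ⟨(m 0, m 1), ?_, mk_eta m⟩
    rw [Finset.mem_product, Finset.mem_range, Finset.mem_range]
    simp only
    omega

/-- the exponents of weight `e` in the box -/
noncomputable def St (n : Fin 2 → ℕ) (D e : ℕ) : Finset Ex := {m ∈ box D | nn n m = e}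

theorem mem_St {n : Fin 2 → ℕ} (hn : ∀ i, n i ≠ 0) {D e : ℕ} (he : e ≤ D) {m : Ex} :
    m ∈ St n D e ↔ nn n m = e := by
  unfold St
  rw [Finset.mem_filter, mem_box]
  refine ⟨fun h => h.2, fun h => ⟨?_, h⟩⟩
  unfold nn at h
  have h0 : m 0 ≤ n 0 * m 0 := Nat.le_mul_of_pos_left _ (Nat.pos_of_ne_zero (hn 0))
  have h1 : m 1 ≤ n 1 * m 1 := Nat.le_mul_of_pos_left _ (Nat.pos_of_ne_zero (hn 1))
  omega

/-- monomial at a point -/
def pw (P : Fin 2 → k) (m : Ex) : k := P 0 ^ m 0 * P 1 ^ m 1

theorem pw_add (P : Fin 2 → k) (a b : Ex) : pw P (a + b) = pw P a * pw P b := by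
  unfold pw
  simp only [Finsupp.add_apply]
  ring

theorem eval_eq_sum (P : Fin 2 → k) (f : MvPolynomial (Fin 2) k) {S : Finset Ex}
    (hS : f.support ⊆ S) : eval P f = ∑ m ∈ S, coeff m f * pw P m := by
  rw [eval_eq']
  simp_rw [Fin.prod_univ_two]
  refine Finset.sum_subset hS fun m _ hm => ?_
  rw [notMem_support_iff.mp hm, zero_mul]

/-- the symmetric coefficients -/
noncomputable def La (n : Fin 2 → ℕ) (D : ℕ) (P : Fin 2 → k) (N : MvPolynomial (Fin 2) k)
    (e j : ℕ) : k :=
  ∑ a ∈ St n D e, ∑ b ∈ St n D j, pw P a * pw P b * (bn a b : k) * coeff (a + b) N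

theorem La_symm (n : Fin 2 → ℕ) (D : ℕ) (P : Fin 2 → k) (N : MvPolynomial (Fin 2) k)
    (e j : ℕ) : La n D P N e j = La n D P N j e := by
  unfold La
  rw [Finset.sum_comm]
  refine Finset.sum_congr rfl fun a _ => Finset.sum_congr rfl fun b _ => ?_
  rw [bn_comm, add_comm b a]
  ring

theorem sum_zeta {n : Fin 2 → ℕ} (hn : ∀ i, n i ≠ 0) (D : ℕ) (P : Fin 2 → k)
    (N : MvPolynomial (Fin 2) k) (ζ : k) :
    ∑ m ∈ St n D D, coeff m N * pw P m * ((1 + ζ ^ n 0) ^ m 0 * (1 + ζ ^ n 1) ^ m 1) =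
      ∑ e ∈ Finset.range (D + 1), ζ ^ e * La n D P N e (D - e) := by
  classical
  set L : MvPolynomial (Fin 2) k := ∑ m ∈ St n D D, monomial m (coeff m N) with hL
  have hcL : ∀ m, coeff m L = if nn n m = D then coeff m N else 0 := by
    intro m
    rw [hL, coeff_sum]
    simp_rw [coeff_monomial]
    rw [Finset.sum_ite_eq']
    simp_rw [mem_St hn le_rfl]
  set Q : Fin 2 → k := fun i => ζ ^ n i * P i with hQ
  -- left side
  have h1 : eval (P + Q) L = ∑ m ∈ St n D D, coeff m N * pw P m *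
      ((1 + ζ ^ n 0) ^ m 0 * (1 + ζ ^ n 1) ^ m 1) := by
    rw [hL, map_sum]
    refine Finset.sum_congr rfl fun m _ => ?_
    rw [eval_monomial, Finsupp.prod_fintype _ _ (by simp), Fin.prod_univ_two]
    unfold pw
    simp only [hQ, Pi.add_apply]
    rw [show P 0 + ζ ^ n 0 * P 0 = P 0 * (1 + ζ ^ n 0) by ring,
      show P 1 + ζ ^ n 1 * P 1 = P 1 * (1 + ζ ^ n 1) by ring, mul_pow, mul_pow]
    ring
  -- right side
  have h2 : eval (P + Q) L = ∑ a ∈ box D, eval P (coeff a (sh k L)) * pw Q a := by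
    have h3 := ev2_sh (S := k) P Q L
    rw [aeval_eq_eval] at h3
    rw [← h3]
    have h4 : ∀ F : BB (Fin 2) k, ev2 (R := k) P Q F =
        ∑ a ∈ F.support, eval P (coeff a F) * pw Q a := by
      intro F
      show eval₂Hom (aeval P : MvPolynomial (Fin 2) k →ₐ[k] k).toRingHom Q F = _
      rw [coe_eval₂Hom, eval₂_eq']
      refine Finset.sum_congr rfl fun a _ => ?_
      rw [Fin.prod_univ_two]
      simp only [AlgHom.toRingHom_eq_coe, RingHom.coe_coe, aeval_eq_eval]
      rfl
    rw [h4]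
    refine Finset.sum_subset ?_ fun a _ ha => ?_
    · intro a ha
      rw [mem_support_iff] at ha
      have h5 : ∃ b, coeff b (coeff a (sh k L)) ≠ 0 := by
        by_contra h6
        push Not at h6
        exact ha (by ext b; rw [h6, coeff_zero])
      obtain ⟨b, hb⟩ := h5
      rw [coeff_sh] at hb
      have h6 := right_ne_zero_of_mul hb
      rw [hcL] at h6
      have h7 : nn n (a + b) = D := by
        by_contra h8
        exact h6 (if_neg h8)
      rw [nn_add] at h7
      have h8 : a ∈ St n D (nn n a) := (mem_St hn (by omega)).mpr rfl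
      unfold St at h8
      rw [Finset.mem_filter] at h8
      exact h8.1
    · rw [notMem_support_iff.mp ha, map_zero, zero_mul]
  have h3 : ∀ a ∈ box D, eval P (coeff a (sh k L)) * pw Q a = ζ ^ nn n a *
      (if nn n a ≤ D then ∑ b ∈ St n D (D - nn n a), pw P a * pw P b * (bn a b : k) *
        coeff (a + b) N else 0) := by
    intro a _
    have h4 : pw Q a = ζ ^ nn n a * pw P a := by
      unfold pw nn
      simp only [hQ]
      rw [mul_pow, mul_pow, pow_add, pow_mul, pow_mul]
      ring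
    split_ifs with h5
    · have h6 : (coeff a (sh k L)).support ⊆ St n D (D - nn n a) := by
        intro b hb
        rw [mem_support_iff, coeff_sh] at hb
        have h7 := right_ne_zero_of_mul hb
        rw [hcL] at h7
        have h8 : nn n (a + b) = D := by
          by_contra h9
          exact h7 (if_neg h9)
        rw [nn_add] at h8
        exact (mem_St hn (by omega)).mpr (by omega)
      rw [eval_eq_sum P _ h6, h4, Finset.sum_mul, Finset.mul_sum]
      refine Finset.sum_congr rfl fun b hb => ?_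
      have h7 := (mem_St hn (by omega)).mp hb
      rw [coeff_sh, hcL, if_pos (by rw [nn_add]; omega)]
      ring
    · have h6 : coeff a (sh k L) = 0 := by
        ext b
        rw [coeff_sh, hcL, if_neg (by rw [nn_add]; omega), mul_zero, coeff_zero]
      rw [h6, map_zero, zero_mul, mul_zero]
  rw [← h1, h2, Finset.sum_congr rfl h3]
  rw [← Finset.sum_filter_add_sum_filter_not (box D) (fun a => nn n a ≤ D)]
  have h4 : ∑ a ∈ box D with ¬ nn n a ≤ D, ζ ^ nn n a *
      (if nn n a ≤ D then ∑ b ∈ St n D (D - nn n a), pw P a * pw P b * (bn a b : k) *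
        coeff (a + b) N else 0) = 0 := by
    refine Finset.sum_eq_zero fun a ha => ?_
    rw [Finset.mem_filter] at ha
    rw [if_neg ha.2, mul_zero]
  rw [h4, add_zero]
  rw [← Finset.sum_fiberwise_of_maps_to (t := Finset.range (D + 1)) (g := fun a => nn n a)]
  · refine Finset.sum_congr rfl fun e he => ?_
    rw [Finset.mem_range] at he
    unfold La
    rw [Finset.mul_sum]
    have h5 : ({a ∈ ({a ∈ box D | nn n a ≤ D} : Finset Ex) | nn n a = e} : Finset Ex) =
        St n D e := by
      ext a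
      unfold St
      simp only [Finset.mem_filter]
      constructor
      · rintro ⟨⟨h6, -⟩, h7⟩
        exact ⟨h6, h7⟩
      · rintro ⟨h6, h7⟩
        exact ⟨⟨h6, by omega⟩, h7⟩
    rw [h5]
    refine Finset.sum_congr rfl fun a ha => ?_
    have h6 := (mem_St hn (by omega)).mp ha
    rw [h6, if_pos (by omega)]
  · intro a ha
    rw [Finset.mem_filter] at ha
    rw [Finset.mem_range]
    omega

end rel

end Pool.Agent.TWLY
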