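import Pool.Agent.Lib.TWLY.F

/-!
# Layer lemma VII: the degree lemma
-/

set_option autoImplicit false

namespace Pool.Agent.TWLY

open MvPolynomial
open TWIV.JW (BB sh cz)
open Pool.Agent.H15JM (RVal)
open Pool.Agent.LU1 (VPos)
open Pool.Agent.D2 (Ctx0)
open Pool.Agent.TWM (Gt)

universe u

variable {k Ω : Type u} [Field k] [Field Ω] [Algebra k Ω] [IsAlgClosed k] {p : ℕ}
  [Fact p.Prime] [CharP k p] {v : RVal Ω} {κ : ℕ → k} {t : ℕ} {ν : ℝ}
  {W : Submodule k (MvPolynomial (Fin 2) k)} {x : Fin 2 → Ω} {z : Ω}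
  {G : MvPolynomial (Fin 2) k} {lam : BB (Fin 2) k} {e : k} {l : MvPolynomial (Fin 2) k}
  {Dl : MvPolynomial (Fin 2) k →ₗ[k] Ω}

omit [Fact p.Prime] [CharP k p] in
theorem Lay.coeff_sh_mem (h : Lay p v κ t ν W x z G lam e l Dl) {N : MvPolynomial (Fin 2) k}
    (hN : N ∈ W) (a : Ex) : coeff a (sh k N) - C (coeff a N) ∈ W := by
  have : Infinite k := IsAlgClosed.instInfinite
  rw [← coeff_cz, ← coeff_sub]
  refine coeff_mem_of_eval _ (fun c => ?_) a
  show evc c (sh k N - cz k N) ∈ W
  rw [map_sub, evc_sh, evc_cz]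
  exact h.tr c N hN

theorem wt_nn {n : Fin 2 → ℕ} {θ : ℝ} (m : Ex) : wt (fun i => n i * θ) m = nn n m * θ := by
  unfold wt nn
  push_cast
  ring

theorem one_add_ne {a : ℕ} (ha : a ≠ 0) : (1 + Polynomial.X ^ a : Polynomial k) ≠ 0 := by
  intro h
  have := congrArg (Polynomial.eval 0) h
  simp [ha] at this

/-- The degree lemma for commensurable weights. -/
theorem Lay.deg_comm (h : Lay p v κ t ν W x z G lam e l Dl) (hk : Ctx0 k v) {n : Fin 2 → ℕ}
    (hn : ∀ i, n i ≠ 0) (hcop : Nat.Coprime (n 0) (n 1)) {θ : ℝ} (hθ : 0 < θ)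
    (hx0 : ∀ i, x i ≠ 0) (hxv : ∀ i, v (x i) = -(n i * θ)) (h01 : ∀ a, n 0 ≠ p ^ a * n 1)
    (h10 : ∀ a, n 1 ≠ p ^ a * n 0) {N : MvPolynomial (Fin 2) k} (hN : N ∈ W) :
    ∀ m ∈ N.support, wt (fun i => n i * θ) m ≤ 2 * ν := by
  classical
  by_contra hcon
  push Not at hcon
  obtain ⟨m₁, hm₁, hlt₁⟩ := hcon
  have hν := h.nu
  -- the uniformiser
  have hbez : ((n 0 : ℤ) * Nat.gcdA (n 0) (n 1) + (n 1 : ℤ) * Nat.gcdB (n 0) (n 1)) = 1 := by
    rw [← Nat.gcd_eq_gcd_ab, hcop]
    rfl
  set Θ : Ω := x 0 ^ Nat.gcdA (n 0) (n 1) * x 1 ^ Nat.gcdB (n 0) (n 1) with hΘ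
  have hΘ0 : Θ ≠ 0 := mul_ne_zero (zpow_ne_zero _ (hx0 0)) (zpow_ne_zero _ (hx0 1))
  have hΘv : v Θ = -θ := by
    rw [hΘ, v.map_mul (zpow_ne_zero _ (hx0 0)) (zpow_ne_zero _ (hx0 1)), v.map_zpow (hx0 0),
      v.map_zpow (hx0 1), hxv, hxv]
    have h1 : ((n 0 : ℝ) * (Nat.gcdA (n 0) (n 1) : ℝ) + (n 1 : ℝ) * (Nat.gcdB (n 0) (n 1) : ℝ))
        = 1 := by exact_mod_cast hbez
    linear_combination (-θ) * h1
  have hu : ∀ i, ∃ c : k, c ≠ 0 ∧ VPos v (x i / Θ ^ n i - algebraMap k Ω c) := by
    intro i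
    refine hk.res _ (div_ne_zero (hx0 i) (pow_ne_zero _ hΘ0)) ?_
    rw [v.map_div (hx0 i) (pow_ne_zero _ hΘ0), v.map_pow hΘ0, hxv, hΘv]
    ring
  choose P hP0 hP using hu
  -- the top degree
  obtain ⟨m₀, hm₀, hmax⟩ := N.support.exists_max_image (nn n) ⟨m₁, hm₁⟩
  set D := nn n m₀ with hD
  have hDν : 2 * ν < D * θ := by
    have h1 : wt (fun i => n i * θ) m₁ ≤ D * θ := by
      rw [wt_nn]
      have : (nn n m₁ : ℝ) ≤ D := by exact_mod_cast hmax m₁ hm₁
      nlinarith
    linarith
  -- vanishing of the coefficients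
  have key : ∀ e j, e + j = D → ν < j * θ → La n D P N e j = 0 := by
    intro e j hej hj
    by_contra h0
    set F : MvPolynomial (Fin 2) k := ∑ a ∈ St n D e, C (pw P a) * coeff a (sh k N) with hF
    set g : k := ∑ a ∈ St n D e, pw P a * coeff a N with hg
    have hFW : F - C g ∈ W := by
      rw [hF, hg, map_sum, ← Finset.sum_sub_distrib]
      refine W.sum_mem fun a _ => ?_
      rw [C_mul, ← mul_sub, ← smul_eq_C_mul]
      exact W.smul_mem _ (h.coeff_sh_mem hN a)
    have hcF : ∀ b, coeff b F = ∑ a ∈ St n D e, pw P a * ((bn a b : k) * coeff (a + b) N) := by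
      intro b
      rw [hF, coeff_sum]
      refine Finset.sum_congr rfl fun a _ => ?_
      rw [coeff_C_mul, coeff_sh]
    have hsup : ∀ b ∈ F.support, nn n b ≤ j := by
      intro b hb
      rw [mem_support_iff, hcF] at hb
      obtain ⟨a, ha, h1⟩ := Finset.exists_ne_zero_of_sum_ne_zero hb
      have h2 := right_ne_zero_of_mul (right_ne_zero_of_mul h1)
      have h3 := hmax _ (mem_support_iff.mpr h2)
      rw [nn_add, (mem_St hn (by omega)).mp ha] at h3
      omega
    have htp : tp (fun i => n i * θ) P (j * θ) F = La n D P N e j := by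
      unfold tp La
      rw [Finset.sum_comm]
      have h1 : ({m ∈ F.support | wt (fun i => n i * θ) m = j * θ} : Finset Ex) ⊆ St n D j := by
        intro b hb
        rw [Finset.mem_filter, wt_nn] at hb
        refine (mem_St hn (by omega)).mpr ?_
        have h2 := mul_right_cancel₀ hθ.ne' hb.2
        exact_mod_cast h2
      rw [← Finset.sum_subset h1]
      · refine Finset.sum_congr rfl fun b _ => ?_
        rw [hcF, Finset.sum_mul]
        refine Finset.sum_congr rfl fun a _ => ?_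
        unfold pw
        ring
      · intro b hb hb'
        have h2 : coeff b F = 0 := by
          by_contra h3
          apply hb'
          rw [Finset.mem_filter, wt_nn, (mem_St hn (by omega)).mp hb]
          exact ⟨mem_support_iff.mpr h3, rfl⟩
        rw [hcF] at h2
        calc ∑ a ∈ St n D e, pw P a * pw P b * (bn a b : k) * coeff (a + b) N
            = (∑ a ∈ St n D e, pw P a * ((bn a b : k) * coeff (a + b) N)) * pw P b := by
              rw [Finset.sum_mul]
              refine Finset.sum_congr rfl fun a _ => ?_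
              ring
          _ = 0 := by rw [h2, zero_mul]
    have hv := v_lead (θ := fun i => Θ ^ n i) (u := fun i => x i / Θ ^ n i) (P := P)
      (w := fun i => n i * θ) (T := Θ ^ j) (d := j * θ) (x := x) hk ?_ ?_ hP F ?_ ?_ ?_ ?_ ?_
    · have h1 := h.le _ hFW
      rw [map_sub, ← algebraMap_eq, AlgHom.commutes] at h1
      have h2 : v.Ge (-ν) (aeval x F) := by
        have h3 : aeval x F = (aeval x F - algebraMap k Ω g) + algebraMap k Ω g := by ring
        rw [h3]
        exact h1.add ((hk.ge g).mono (by linarith))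
      have h3 := h2 hv.1
      rw [hv.2] at h3
      linarith
    · intro i _
      rw [v.map_pow hΘ0, hΘv]
      linarith
    · intro i
      rw [mul_div_cancel₀ _ (pow_ne_zero _ hΘ0)]
    · intro b hb
      rw [wt_nn]
      have : (nn n b : ℝ) ≤ j := by exact_mod_cast hsup b hb
      nlinarith
    · intro b hb hwb
      rw [wt_nn] at hwb
      have h2 : nn n b = j := by
        have := mul_right_cancel₀ hθ.ne' hwb
        exact_mod_cast this
      rw [← pow_mul, ← pow_mul, ← pow_add]
      congr 1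
    · exact pow_ne_zero _ hΘ0
    · rw [v.map_pow hΘ0, hΘv]
      ring
    · rw [htp]
      exact h0
  have hLa : ∀ e ≤ D, La n D P N e (D - e) = 0 := by
    intro e he
    by_cases h1 : ν < ((D - e : ℕ) : ℝ) * θ
    · exact key e (D - e) (by omega) h1
    · rw [La_symm]
      refine key (D - e) e (by omega) ?_
      rw [Nat.cast_sub he] at h1
      push Not at h1
      nlinarith
  -- the polynomial in `ζ`
  set S : Finset Ex := {m ∈ St n D D | coeff m N ≠ 0} with hS
  have hPne : ∀ m, pw P m ≠ 0 := fun m =>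
    mul_ne_zero (pow_ne_zero _ (hP0 0)) (pow_ne_zero _ (hP0 1))
  have hSne : S.Nonempty := by
    refine ⟨m₀, ?_⟩
    rw [hS, Finset.mem_filter]
    exact ⟨(mem_St hn le_rfl).mpr hD.symm, mem_support_iff.mp hm₀⟩
  have hpoly : ∑ m ∈ S, Polynomial.C (coeff m N * pw P m) *
      ((1 + Polynomial.X ^ n 0) ^ m 0 * (1 + Polynomial.X ^ n 1) ^ m 1) = 0 := by
    have : Infinite k := IsAlgClosed.instInfinite
    refine Polynomial.funext fun ζ => ?_
    rw [Polynomial.eval_zero, Polynomial.eval_finset_sum]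
    have h1 := sum_zeta hn D P N ζ
    have h2 : ∑ e ∈ Finset.range (D + 1), ζ ^ e * La n D P N e (D - e) = 0 := by
      refine Finset.sum_eq_zero fun e he => ?_
      rw [Finset.mem_range] at he
      rw [hLa e (by omega), mul_zero]
    rw [h2] at h1
    rw [← h1, hS, Finset.sum_filter]
    refine Finset.sum_congr rfl fun m _ => ?_
    split_ifs with h3
    · simp
    · push Not at h3
      rw [h3]
      ring
  have hinj : ∀ m ∈ S, nn n m = D := by
    intro m hm
    rw [hS, Finset.mem_filter] at hm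
    exact (mem_St hn le_rfl).mp hm.1
  have hc : ∀ m ∈ S, coeff m N * pw P m ≠ 0 := by
    intro m hm
    rw [hS, Finset.mem_filter] at hm
    exact mul_ne_zero hm.2 (hPne m)
  rcases exists_zeta (k := k) (hn 0) (hn 1) h01 h10 with ⟨ζ, hζ1, hζ2⟩ | ⟨ζ, hζ1, hζ2⟩
  · refine sum_ne_zero S hSne _ hc (fun m => m 0) (fun m => m 1) ?_
      (1 + Polynomial.X ^ n 0) (1 + Polynomial.X ^ n 1) (one_add_ne (hn 0)) (ζ := ζ) ?_ ?_ hpoly
    · intro m hm m' hm' hmm
      have h1 := hinj m hm
      have h2 := hinj m' hm'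
      simp only at hmm
      unfold nn at h1 h2
      rw [← h2, hmm] at h1
      have h3 := Nat.add_left_cancel h1
      exact ex_ext hmm (Nat.eq_of_mul_eq_mul_left (Nat.pos_of_ne_zero (hn 1)) h3)
    · simp [hζ1]
    · simp only [Polynomial.eval_add, Polynomial.eval_one, Polynomial.eval_pow,
        Polynomial.eval_X]
      intro h1
      exact hζ2 (by linear_combination h1)
  · refine sum_ne_zero S hSne _ hc (fun m => m 1) (fun m => m 0) ?_
      (1 + Polynomial.X ^ n 1) (1 + Polynomial.X ^ n 0) (one_add_ne (hn 1)) (ζ := ζ) ?_ ?_ ?_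
    · intro m hm m' hm' hmm
      have h1 := hinj m hm
      have h2 := hinj m' hm'
      simp only at hmm
      unfold nn at h1 h2
      rw [← h2, hmm] at h1
      have h3 := Nat.add_right_cancel h1
      exact ex_ext (Nat.eq_of_mul_eq_mul_left (Nat.pos_of_ne_zero (hn 0)) h3) hmm
    · simp [hζ1]
    · simp only [Polynomial.eval_add, Polynomial.eval_one, Polynomial.eval_pow,
        Polynomial.eval_X]
      intro h1
      exact hζ2 (by linear_combination h1)
    · rw [← hpoly]
      refine Finset.sum_congr rfl fun m _ => ?_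
      ring

end Pool.Agent.TWLY
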