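import Pool.Agent.Lib.TWLY.G

/-!
# Layer lemma VIII: the terminal cases
-/

set_option autoImplicit false

namespace Pool.Agent.TWLY

open MvPolynomial
open TWIV.JW (BB sh cz ev2 ev2_sh)
open Pool.Agent.H15JM (RVal)
open Pool.Agent.LU1 (VPos)
open Pool.Agent.D2 (Ctx0)
open Pool.Agent.TWM (Gt)

universe u

section pair

variable {i j : Fin 2}

theorem wt_pair (hij : i ≠ j) (w : Fin 2 → ℝ) (m : Ex) : wt w m = m i * w i + m j * w j := by
  unfold wt
  fin_cases i <;> fin_cases j <;> simp at hij ⊢
  ring

theorem ex_ext' (hij : i ≠ j) {m n : Ex} (hi : m i = n i) (hj : m j = n j) : m = n := by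
  fin_cases i <;> fin_cases j <;> simp at hij hi hj
  · exact ex_ext hi hj
  · exact ex_ext hj hi

theorem prod_pair {M : Type*} [CommMonoid M] (hij : i ≠ j) (f : Fin 2 → M) :
    f 0 * f 1 = f i * f j := by
  fin_cases i <;> fin_cases j <;> simp at hij ⊢
  rw [mul_comm]

theorem all_pair (hij : i ≠ j) {P : Fin 2 → Prop} (hi : P i) (hj : P j) (a : Fin 2) : P a := by
  fin_cases i <;> fin_cases j <;> fin_cases a <;> simp at hij hi hj ⊢ <;> assumption

end pair

variable {k Ω : Type u} [Field k] [Field Ω] [Algebra k Ω] [IsAlgClosed k] {p : ℕ}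
  [Fact p.Prime] [CharP k p] {v : RVal Ω} {κ : ℕ → k} {t : ℕ} {ν : ℝ}
  {W : Submodule k (MvPolynomial (Fin 2) k)} {x : Fin 2 → Ω} {z : Ω}
  {G : MvPolynomial (Fin 2) k} {lam : BB (Fin 2) k} {e : k} {l : MvPolynomial (Fin 2) k}
  {Dl : MvPolynomial (Fin 2) k →ₗ[k] Ω}

/-- weights for which the degree lemma holds -/
def Good (v : RVal Ω) (ν : ℝ) (W : Submodule k (MvPolynomial (Fin 2) k)) (x : Fin 2 → Ω) :
    Prop :=
  ∃ w : Fin 2 → ℝ, (∀ i, 0 ≤ w i) ∧ (∀ i, v.Ge (-w i) (x i)) ∧
    (∀ i, w i = 0 ∨ (x i ≠ 0 ∧ v (x i) = -w i)) ∧ ∀ N ∈ W, ∀ m ∈ N.support, wt w m ≤ 2 * ν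

/-- The layer has one variable only. -/
theorem Lay.single (h : Lay p v κ t ν W x z G lam e l Dl) (hk : Ctx0 k v)
    (hg : Good v ν W x) :
    ∃ i, x i ≠ 0 ∧ v (x i) < -(p * ν) ∧ ∀ N ∈ W, ∀ m ∈ N.support, m i = 0 := by
  obtain ⟨w, hw, hx, hex, hd⟩ := hg
  have h1 := h.e2 hk hw hx hd
  have hp : 1 < p := Nat.Prime.one_lt Fact.out
  have hp2 : (2 : ℝ) ≤ p := by exact_mod_cast hp
  have hν := h.nu
  have key : ∀ i, (p : ℝ) * ν < w i →
      x i ≠ 0 ∧ v (x i) < -(p * ν) ∧ ∀ N ∈ W, ∀ m ∈ N.support, m i = 0 := by
    intro i hi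
    have hpos : 0 ≤ (p : ℝ) * ν := by positivity
    rcases hex i with h0 | ⟨h1, h2⟩
    · rw [h0] at hi
      linarith
    refine ⟨h1, by rw [h2]; linarith, fun N hN m hm => ?_⟩
    by_contra hne
    have h2 : (1 : ℝ) ≤ m i := by exact_mod_cast Nat.one_le_iff_ne_zero.mpr hne
    have h3 := hd N hN m hm
    obtain ⟨j, hij⟩ : ∃ j, i ≠ j := ⟨1 - i, by fin_cases i <;> simp⟩
    rw [wt_pair hij] at h3
    have h4 := hw j
    have h5 := hw i
    have h6 : 0 ≤ (m j : ℝ) * w j := by positivity
    nlinarith
  rcases lt_max_iff.mp h1 with h2 | h2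
  · exact ⟨0, key 0 h2⟩
  · exact ⟨1, key 1 h2⟩

omit [IsAlgClosed k] [Fact p.Prime] [CharP k p] in
theorem aeval_tr (x : Fin 2 → Ω) (c : Fin 2 → k) (N : MvPolynomial (Fin 2) k) :
    aeval x (tr c N) = aeval (fun i => x i + algebraMap k Ω (c i)) N := by
  have h : (aeval x : MvPolynomial (Fin 2) k →ₐ[k] Ω).comp (tr c) =
      aeval (fun i => x i + algebraMap k Ω (c i)) := by
    apply MvPolynomial.algHom_ext
    intro i
    simp [tr]
  exact DFunLike.congr_fun h N

/-- Terminal case: one displacement is bounded. -/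
theorem Lay.good_of_ge (h : Lay p v κ t ν W x z G lam e l Dl) (hk : Ctx0 k v) {i j : Fin 2}
    (hij : i ≠ j) (hj : v.Ge 0 (x j)) : Good v ν W x := by
  classical
  have hν := h.nu
  by_cases hi : v.Ge 0 (x i)
  · refine ⟨fun _ => 0, fun _ => le_rfl, fun a => ?_, fun a => Or.inl rfl, fun N _ m _ => ?_⟩
    · rw [neg_zero]
      exact all_pair hij (P := fun a => v.Ge 0 (x a)) hi hj a
    · unfold wt
      simp only [mul_zero, add_zero]
      positivity
  · have hxi : x i ≠ 0 := by
      intro h0
      exact hi fun h1 => absurd h0 h1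
    have hvi : v (x i) < 0 := by
      by_contra h1
      push Not at h1
      exact hi fun _ => h1
    set w : Fin 2 → ℝ := fun a => if a = i then -v (x i) else 0 with hw
    have hwi : w i = -v (x i) := by simp [hw]
    have hwj : w j = 0 := by simp [hw, hij.symm]
    refine ⟨w, ?_, ?_, ?_, ?_⟩
    · exact all_pair hij (P := fun a => 0 ≤ w a) (by rw [hwi]; linarith) (by rw [hwj])
    · refine all_pair hij (P := fun a => v.Ge (-w a) (x a)) ?_ ?_
      · rw [hwi, neg_neg]
        exact fun _ => le_rfl
      · rw [hwj, neg_zero]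
        exact hj
    · exact all_pair hij (P := fun a => w a = 0 ∨ (x a ≠ 0 ∧ v (x a) = -w a))
        (Or.inr ⟨hxi, by rw [hwi, neg_neg]⟩) (Or.inl hwj)
    · intro N hN
      by_cases hN0 : N = 0
      · intro m hm
        rw [hN0] at hm
        simp at hm
      obtain ⟨m₀, hm₀, hmax⟩ := N.support.exists_max_image (fun m => m i)
        (support_nonempty.mpr hN0)
      set A := m₀ i with hA
      have hwt : ∀ m, wt w m = m i * w i := by
        intro m
        rw [wt_pair hij, hwj, mul_zero, add_zero]
      obtain ⟨ξ, hξ⟩ := hk.residue hj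
      -- the coefficient of the top power
      set q : Polynomial k := ∑ m ∈ N.support with m i = A,
        Polynomial.C (coeff m N) * Polynomial.X ^ m j with hq
      have hq0 : q ≠ 0 := by
        intro h0
        have h1 : q.coeff (m₀ j) = coeff m₀ N := by
          rw [hq, Polynomial.finsetSum_coeff, Finset.sum_eq_single m₀]
          · simp
          · intro m hm hne
            rw [Finset.mem_filter] at hm
            rw [Polynomial.coeff_C_mul, Polynomial.coeff_X_pow, if_neg, mul_zero]
            intro h2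
            exact hne (ex_ext' hij hm.2 h2.symm)
          · intro h2
            exact absurd (Finset.mem_filter.mpr
              (⟨hm₀, hA.symm⟩ : m₀ ∈ N.support ∧ m₀ i = A)) h2
        rw [h0, Polynomial.coeff_zero] at h1
        exact (mem_support_iff.mp hm₀) h1.symm
      have : Infinite k := IsAlgClosed.instInfinite
      obtain ⟨y, hy⟩ : ∃ y, q.eval y ≠ 0 := by
        by_contra h1
        push Not at h1
        exact hq0 (Polynomial.funext fun r => by rw [h1 r, Polynomial.eval_zero])
      set c : Fin 2 → k := fun a => if a = j then y - ξ else 0 with hc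
      have hci : c i = 0 := by simp [hc, hij]
      have hcj : c j = y - ξ := by simp [hc]
      have hv := v_lead (x := fun a => x a + algebraMap k Ω (c a))
        (θ := fun a => if a = i then x i else 1)
        (u := fun a => if a = i then 1 else x j + algebraMap k Ω (c j))
        (P := fun a => if a = i then 1 else y) (w := w) (T := x i ^ A) (d := A * w i) hk
        ?_ ?_ ?_ N ?_ ?_ ?_ ?_ ?_
      · have h1 := h.le _ (h.tr c N hN)
        have h2 : aeval x (C (eval c N)) = algebraMap k Ω (eval c N) := by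
          rw [← algebraMap_eq, AlgHom.commutes]
        rw [map_sub, h2, aeval_tr] at h1
        have h3 : v.Ge (-ν) (aeval (fun a => x a + algebraMap k Ω (c a)) N) := by
          have h4 : aeval (fun a => x a + algebraMap k Ω (c a)) N =
              (aeval (fun a => x a + algebraMap k Ω (c a)) N - algebraMap k Ω (eval c N)) +
                algebraMap k Ω (eval c N) := by ring
          rw [h4]
          exact h1.add ((hk.ge _).mono (by linarith))
        have h4 := h3 hv.1
        rw [hv.2] at h4
        intro m hm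
        rw [hwt]
        have h5 : (m i : ℝ) ≤ A := by exact_mod_cast hmax m hm
        have h6 : 0 ≤ w i := by rw [hwi]; linarith
        nlinarith
      · refine all_pair hij (P := fun a => v.Ge (-w a) (if a = i then x i else 1)) ?_ ?_
        · rw [if_pos rfl, hwi, neg_neg]
          exact fun _ => le_rfl
        · rw [if_neg hij.symm, hwj, neg_zero]
          have := hk.ge 1
          rwa [map_one] at this
      · refine all_pair hij (P := fun a => x a + algebraMap k Ω (c a) =
          (if a = i then x i else 1) * (if a = i then 1 else x j + algebraMap k Ω (c j))) ?_ ?_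
        · simp [hci]
        · simp [hij.symm]
      · refine all_pair hij (P := fun a => VPos v ((if a = i then 1 else
          x j + algebraMap k Ω (c j)) - algebraMap k Ω (if a = i then 1 else y))) ?_ ?_
        · simp only [if_true, map_one, sub_self]
          exact fun h0 => absurd rfl h0
        · rw [if_neg hij.symm, if_neg hij.symm, hcj, map_sub]
          have : x j + (algebraMap k Ω y - algebraMap k Ω ξ) - algebraMap k Ω y =
            x j - algebraMap k Ω ξ := by ring
          rw [this]
          exact hξ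
      · intro m hm
        rw [hwt]
        have h5 : (m i : ℝ) ≤ A := by exact_mod_cast hmax m hm
        have h6 : 0 ≤ w i := by rw [hwi]; linarith
        nlinarith
      · intro m hm hmd
        rw [prod_pair hij (fun a => (if a = i then x i else 1) ^ m a), if_pos rfl,
          if_neg hij.symm, one_pow, mul_one]
        rw [hwt] at hmd
        have h6 : w i ≠ 0 := by rw [hwi]; linarith
        have h7 := mul_right_cancel₀ h6 hmd
        have h8 : m i = A := by exact_mod_cast h7
        rw [h8]
      · exact pow_ne_zero _ hxi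
      · rw [v.map_pow hxi, hwi]
        ring
      · have h1 : tp w (fun a => if a = i then 1 else y) (A * w i) N = q.eval y := by
          unfold tp
          rw [hq, Polynomial.eval_finsetSum]
          refine Finset.sum_congr ?_ fun m _ => ?_
          · ext m
            simp only [Finset.mem_filter, and_congr_right_iff]
            intro _
            rw [hwt]
            have h6 : w i ≠ 0 := by rw [hwi]; linarith
            constructor
            · intro h7
              have h8 := mul_right_cancel₀ h6 h7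
              exact_mod_cast h8
            · intro h7
              rw [h7]
          · rw [prod_pair hij (fun a => (if a = i then (1 : k) else y) ^ m a), if_pos rfl,
              if_neg hij.symm, one_pow, one_mul]
            simp
        rw [h1]
        exact hy

omit [IsAlgClosed k] [Fact p.Prime] [CharP k p] in
/-- The case of a unique leading monomial. -/
theorem Lay.le_of_unique (h : Lay p v κ t ν W x z G lam e l Dl) (hk : Ctx0 k v)
    {w : Fin 2 → ℝ} (hx0 : ∀ i, x i ≠ 0) (hxv : ∀ i, v (x i) = -w i)
    {N : MvPolynomial (Fin 2) k} (hN : N ∈ W)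
    (hu : ∀ m ∈ N.support, ∀ m' ∈ N.support, (∀ n ∈ N.support, wt w n ≤ wt w m) →
      wt w m = wt w m' → m = m') : ∀ m ∈ N.support, wt w m ≤ ν := by
  intro m hm
  obtain ⟨m₀, hm₀, hmax⟩ := N.support.exists_max_image (wt w) ⟨m, hm⟩
  have h1 := v_unique hk hx0 hxv N hm₀ fun m' hm' hne => by
    refine lt_of_le_of_ne (hmax m' hm') fun h2 => ?_
    exact hne (hu m₀ hm₀ m' hm' hmax h2.symm).symm
  have h2 := h.le N hN h1.1
  rw [h1.2] at h2
  have h3 := hmax m hm
  linarith

omit [IsAlgClosed k] [Fact p.Prime] [CharP k p] in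
/-- Terminal case: the leading monomials contain one variable only. -/
theorem Lay.good_of_lead (h : Lay p v κ t ν W x z G lam e l Dl) (hk : Ctx0 k v)
    {w : Fin 2 → ℝ} {i j : Fin 2} (hij : i ≠ j) (hw : ∀ i, 0 < w i) (hx0 : ∀ i, x i ≠ 0)
    (hxv : ∀ i, v (x i) = -w i)
    (hl : ∀ N ∈ W, ∀ m ∈ N.support, (∀ n ∈ N.support, wt w n ≤ wt w m) → m j = 0) :
    Good v ν W x := by
  have hν := h.nu
  refine ⟨w, fun i => (hw i).le, fun i _ => by rw [hxv], fun i => Or.inr ⟨hx0 i, hxv i⟩,
    fun N hN m hm => ?_⟩
  have h1 := h.le_of_unique hk hx0 hxv hN ?_ m hm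
  · linarith
  · intro m hm m' hm' hmax heq
    have h2 := hl N hN m hm hmax
    have h3 := hl N hN m' hm' (fun n hn => by rw [← heq]; exact hmax n hn)
    refine ex_ext' hij ?_ (by rw [h2, h3])
    rw [wt_pair hij, wt_pair hij, h2, h3] at heq
    simp only [Nat.cast_zero, zero_mul, add_zero] at heq
    have h4 := mul_right_cancel₀ (hw i).ne' heq
    exact_mod_cast h4

/-- Terminal case: no tie between the weights. -/
theorem Lay.good_of_no_tie (h : Lay p v κ t ν W x z G lam e l Dl) (hk : Ctx0 k v)
    {w : Fin 2 → ℝ} (hw : ∀ i, 0 < w i) (hx0 : ∀ i, x i ≠ 0)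
    (hxv : ∀ i, v (x i) = -w i) (h01 : ∀ a : ℕ, w 0 ≠ p ^ a * w 1)
    (h10 : ∀ a : ℕ, w 1 ≠ p ^ a * w 0) : Good v ν W x := by
  have hν := h.nu
  by_cases hc : ∃ A B : ℕ, A ≠ 0 ∧ B ≠ 0 ∧ (A : ℝ) * w 0 = B * w 1
  · obtain ⟨A, B, hA, hB, hAB⟩ := hc
    set g := Nat.gcd B A with hg
    have hg0 : 0 < g := Nat.gcd_pos_of_pos_left _ (Nat.pos_of_ne_zero hB)
    obtain ⟨B', hB'⟩ : g ∣ B := Nat.gcd_dvd_left _ _
    obtain ⟨A', hA'⟩ : g ∣ A := Nat.gcd_dvd_right _ _
    have hA0 : A' ≠ 0 := by rintro rfl; simp at hA'; exact hA hA'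
    have hB0 : B' ≠ 0 := by rintro rfl; simp at hB'; exact hB hB'
    have hcop : Nat.Coprime B' A' := by
      have h1 : Nat.gcd (g * B') (g * A') = g * Nat.gcd B' A' := Nat.gcd_mul_left _ _ _
      rw [← hB', ← hA', ← hg] at h1
      exact Nat.eq_of_mul_eq_mul_left hg0 (by rw [mul_one]; exact h1.symm)
    set θ : ℝ := w 0 / B' with hθ
    have hB0' : (B' : ℝ) ≠ 0 := by exact_mod_cast hB0
    have hA0' : (A' : ℝ) ≠ 0 := by exact_mod_cast hA0
    have hθ0 : 0 < θ := div_pos (hw 0) (by positivity)
    have hw0 : w 0 = B' * θ := by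
      rw [hθ]
      field_simp
    have hw1 : w 1 = A' * θ := by
      have h1 : (g : ℝ) * A' * w 0 = g * B' * w 1 := by
        have h2 : (A : ℝ) = g * A' := by exact_mod_cast hA'
        have h3 : (B : ℝ) = g * B' := by exact_mod_cast hB'
        rw [← h2, ← h3]
        exact hAB
      have hg1 : (g : ℝ) ≠ 0 := by exact_mod_cast hg0.ne'
      have h2 : (A' : ℝ) * w 0 = B' * w 1 := by
        apply mul_left_cancel₀ hg1
        linear_combination h1
      rw [hw0] at h2
      apply mul_left_cancel₀ hB0'
      linear_combination -h2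
    set n : Fin 2 → ℕ := ![B', A'] with hn
    have hwn : w = fun i => (n i : ℝ) * θ := by
      funext i
      fin_cases i
      · simpa [hn] using hw0
      · simpa [hn] using hw1
    refine ⟨w, fun i => (hw i).le, fun i _ => by rw [hxv], fun i => Or.inr ⟨hx0 i, hxv i⟩,
      fun N hN m hm => ?_⟩
    have h1 := h.deg_comm hk (n := n) (θ := θ) ?_ hcop hθ0 hx0 ?_ ?_ ?_ hN m hm
    · rw [hwn]
      exact h1
    · intro i
      fin_cases i
      · exact hB0
      · exact hA0
    · intro i
      rw [hxv, hwn]
    · intro a ha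
      apply h01 a
      have h2 : B' = p ^ a * A' := ha
      rw [hw0, hw1, h2]
      push_cast
      ring
    · intro a ha
      apply h10 a
      have h2 : A' = p ^ a * B' := ha
      rw [hw0, hw1, h2]
      push_cast
      ring
  · push Not at hc
    refine ⟨w, fun i => (hw i).le, fun i _ => by rw [hxv], fun i => Or.inr ⟨hx0 i, hxv i⟩,
      fun N hN m hm => ?_⟩
    have h1 := h.le_of_unique hk hx0 hxv hN ?_ m hm
    · linarith
    · intro m hm m' hm' hmax heq
      unfold wt at heq
      rcases lt_trichotomy (m 0) (m' 0) with h2 | h2 | h2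
      · exfalso
        have h3 : m' 1 < m 1 := by
          by_contra h4
          push Not at h4
          have h5 : (m 0 : ℝ) < m' 0 := by exact_mod_cast h2
          have h6 : (m 1 : ℝ) ≤ m' 1 := by exact_mod_cast h4
          have := hw 0
          have := hw 1
          nlinarith
        refine hc (m' 0 - m 0) (m 1 - m' 1) (by omega) (by omega) ?_
        rw [Nat.cast_sub h2.le, Nat.cast_sub h3.le]
        linarith
      · have h3 : (m 1 : ℝ) * w 1 = m' 1 * w 1 := by
          rw [h2] at heq
          linarith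
        have h4 := mul_right_cancel₀ (hw 1).ne' h3
        exact ex_ext h2 (by exact_mod_cast h4)
      · exfalso
        have h3 : m 1 < m' 1 := by
          by_contra h4
          push Not at h4
          have h5 : (m' 0 : ℝ) < m 0 := by exact_mod_cast h2
          have h6 : (m' 1 : ℝ) ≤ m 1 := by exact_mod_cast h4
          have := hw 0
          have := hw 1
          nlinarith
        refine hc (m 0 - m' 0) (m' 1 - m 1) (by omega) (by omega) ?_
        rw [Nat.cast_sub h2.le, Nat.cast_sub h3.le]
        linarith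

end Pool.Agent.TWLY
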