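import Pool.Agent.Lib.TWLY.H

/-!
# Layer lemma IX: transport along additive automorphisms
-/

set_option autoImplicit false

namespace Pool.Agent.TWLY

open MvPolynomial
open TWIV.JW (BB sh cz ev2 ev2_sh)
open Pool.Agent.H15JM (RVal)
open Pool.Agent.LU1 (VPos)
open Pool.Agent.D2 (Ctx0)
open Pool.Agent.TWM (Gt)

universe u

/-! ## linear coefficients -/

section lin

variable {R S : Type*} [CommRing R] [CommRing S]

theorem coeff_single_mul (i : Fin 2) (f g : MvPolynomial (Fin 2) R) :
    coeff (Finsupp.single i 1) (f * g) =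
      coeff 0 f * coeff (Finsupp.single i 1) g + coeff (Finsupp.single i 1) f * coeff 0 g := by
  classical
  rw [coeff_mul, Finsupp.antidiagonal_single]
  simp only [Finset.sum_map, Finset.Nat.antidiagonal_succ, Finset.Nat.antidiagonal_zero,
    Finset.sum_cons, Function.Embedding.prodMap, Function.Embedding.coeFn_mk, Prod.map,
    Finset.map_singleton, Finset.sum_singleton]
  simp

theorem coeff_zero_eval₂ (g : R →+* S) (y : Fin 2 → MvPolynomial (Fin 2) S)
    (hy : ∀ j, coeff 0 (y j) = 0) (f : MvPolynomial (Fin 2) R) :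
    coeff 0 (eval₂Hom (C.comp g) y f) = g (coeff 0 f) := by
  induction f using MvPolynomial.induction_on with
  | C a => simp
  | add f g hf hg => rw [map_add, coeff_add, hf, hg, coeff_add, map_add]
  | mul_X f j hf =>
    have h0 : coeff 0 (f * X j) = 0 := by
      rw [← constantCoeff_eq, map_mul, constantCoeff_X, mul_zero]
    rw [map_mul, h0, map_zero, eval₂Hom_X', ← constantCoeff_eq, map_mul, constantCoeff_eq,
      hy, mul_zero]

theorem coeff_single_eval₂ (g : R →+* S) (y : Fin 2 → MvPolynomial (Fin 2) S)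
    (hy : ∀ j, coeff 0 (y j) = 0) (f : MvPolynomial (Fin 2) R) (i : Fin 2) :
    coeff (Finsupp.single i 1) (eval₂Hom (C.comp g) y f) =
      ∑ j, g (coeff (Finsupp.single j 1) f) * coeff (Finsupp.single i 1) (y j) := by
  classical
  have hs : ∀ j : Fin 2, (0 : Ex) ≠ Finsupp.single j 1 := by
    intro j h
    have := DFunLike.congr_fun h j
    simp at this
  induction f using MvPolynomial.induction_on with
  | C a =>
    rw [eval₂Hom_C, RingHom.comp_apply, coeff_C, if_neg (hs i)]
    symm
    refine Finset.sum_eq_zero fun j _ => ?_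
    rw [coeff_C, if_neg (hs j), map_zero, zero_mul]
  | add f f' hf hf' =>
    rw [map_add, coeff_add, hf, hf', ← Finset.sum_add_distrib]
    refine Finset.sum_congr rfl fun j _ => ?_
    rw [coeff_add, map_add, add_mul]
  | mul_X f j hf =>
    rw [map_mul, coeff_single_mul, eval₂Hom_X', hy, mul_zero, add_zero, coeff_zero_eval₂ g y hy]
    rw [Finset.sum_eq_single j]
    · rw [coeff_single_mul, coeff_X, if_pos rfl, coeff_zero_X, mul_zero, add_zero, mul_one]
    · intro b _ hb
      have h1 : coeff (Finsupp.single b 1) (X j : MvPolynomial (Fin 2) R) = 0 := by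
        rw [coeff_X, if_neg]
        intro h
        exact hb (Finsupp.single_left_injective one_ne_zero h).symm
      rw [coeff_single_mul, h1, coeff_zero_X, mul_zero, mul_zero, add_zero, map_zero, zero_mul]
    · intro h
      exact absurd (Finset.mem_univ _) h

end lin

variable {k : Type u} [Field k]

/-- the map of the plane given by two polynomials -/
noncomputable def pt (E : MvPolynomial (Fin 2) k ≃ₐ[k] MvPolynomial (Fin 2) k) (s : Fin 2 → k) :
    Fin 2 → k := fun i => eval s (E (X i))

theorem eval_map (E : MvPolynomial (Fin 2) k ≃ₐ[k] MvPolynomial (Fin 2) k) (s : Fin 2 → k)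
    (f : MvPolynomial (Fin 2) k) : eval s (E f) = eval (pt E s) f := by
  have h : (aeval s : MvPolynomial (Fin 2) k →ₐ[k] k).comp E.toAlgHom = aeval (pt E s) := by
    apply MvPolynomial.algHom_ext
    intro i
    simp [pt, aeval_eq_eval]
  have := DFunLike.congr_fun h f
  simpa [aeval_eq_eval] using this

/-- an additive automorphism of the plane -/
structure AA (E : MvPolynomial (Fin 2) k ≃ₐ[k] MvPolynomial (Fin 2) k) : Prop where
  adt : ∀ i, Adt (E (X i))
  symm : ∀ i, Adt (E.symm (X i))

theorem AA.pt_add {E : MvPolynomial (Fin 2) k ≃ₐ[k] MvPolynomial (Fin 2) k} (hE : AA E)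
    (s c : Fin 2 → k) : pt E (s + c) = pt E s + pt E c := by
  funext i
  exact hE.adt i s c

theorem AA.map {E : MvPolynomial (Fin 2) k ≃ₐ[k] MvPolynomial (Fin 2) k} (hE : AA E)
    {A : MvPolynomial (Fin 2) k} (hA : Adt A) : Adt (E A) := by
  intro s c
  rw [eval_map, eval_map, eval_map, hE.pt_add]
  exact hA _ _

theorem AA.inv {E : MvPolynomial (Fin 2) k ≃ₐ[k] MvPolynomial (Fin 2) k} (hE : AA E) :
    AA E.symm := ⟨hE.symm, hE.adt⟩

theorem AA.trans {E F : MvPolynomial (Fin 2) k ≃ₐ[k] MvPolynomial (Fin 2) k} (hE : AA E)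
    (hF : AA F) : AA (E.trans F) :=
  ⟨fun i => hF.map (hE.adt i), fun i => hE.inv.map (hF.symm i)⟩

theorem AA.refl : AA (AlgEquiv.refl : MvPolynomial (Fin 2) k ≃ₐ[k] MvPolynomial (Fin 2) k) := by
  constructor
  · intro i s c
    simp
  · intro i s c
    simp

theorem eval_zero_eq (f : MvPolynomial (Fin 2) k) : eval (0 : Fin 2 → k) f = constantCoeff f := by
  have h := aeval_zero (S₁ := k) f
  rw [aeval_eq_eval] at h
  simpa using h

theorem Adt.coeff_zero {A : MvPolynomial (Fin 2) k} (hA : Adt A) : coeff 0 A = 0 := by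
  have h := hA 0 0
  rw [add_zero, eval_zero_eq] at h
  rw [← constantCoeff_eq]
  linear_combination -h

theorem AA.pt_zero {E : MvPolynomial (Fin 2) k ≃ₐ[k] MvPolynomial (Fin 2) k} (hE : AA E) :
    pt E 0 = 0 := by
  have h := hE.pt_add 0 0
  rw [add_zero] at h
  exact (left_eq_add.mp h)

theorem AA.cc {E : MvPolynomial (Fin 2) k ≃ₐ[k] MvPolynomial (Fin 2) k} (hE : AA E)
    (f : MvPolynomial (Fin 2) k) : constantCoeff (E f) = constantCoeff f := by
  rw [← eval_zero_eq, eval_map, hE.pt_zero, eval_zero_eq]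

/-- transport of the translates -/
theorem AA.tr {E : MvPolynomial (Fin 2) k ≃ₐ[k] MvPolynomial (Fin 2) k} [Infinite k] (hE : AA E)
    (c : Fin 2 → k) (f : MvPolynomial (Fin 2) k) : TWLY.tr c (E f) = E (TWLY.tr (pt E c) f) := by
  refine MvPolynomial.funext fun s => ?_
  rw [eval_tr, eval_map, eval_map, eval_tr, hE.pt_add]

/-- transport of a cocycle -/
noncomputable def lm (E : MvPolynomial (Fin 2) k ≃ₐ[k] MvPolynomial (Fin 2) k) :
    BB (Fin 2) k →+* BB (Fin 2) k :=
  eval₂Hom (C.comp (E : MvPolynomial (Fin 2) k →+* MvPolynomial (Fin 2) k))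
    (fun i => cz k (E (X i)))

theorem evc_lm (E : MvPolynomial (Fin 2) k ≃ₐ[k] MvPolynomial (Fin 2) k) (c : Fin 2 → k)
    (F : BB (Fin 2) k) : evc c (lm E F) = E (evc (pt E c) F) := by
  induction F using MvPolynomial.induction_on with
  | C a =>
    rw [evc_C, lm, eval₂Hom_C, RingHom.comp_apply, evc_C]
    rfl
  | add f g hf hg => rw [map_add, map_add, hf, hg, map_add, map_add]
  | mul_X f j hf =>
    rw [map_mul, map_mul, hf, map_mul, map_mul]
    congr 1
    have h1 : evc (pt E c) (X j : BB (Fin 2) k) = C (eval c (E (X j))) := by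
      simp [evc, pt]
    rw [h1, lm, eval₂Hom_X', evc_cz]
    rw [← algebraMap_eq, AlgEquiv.commutes]

/-! ## transport -/

section transport

variable {Ω : Type u} [Field Ω] [Algebra k Ω] {p : ℕ} {v : RVal Ω} {κ : ℕ → k} {t : ℕ} {ν : ℝ}
  {W : Submodule k (MvPolynomial (Fin 2) k)} {x : Fin 2 → Ω} {z : Ω}
  {G : MvPolynomial (Fin 2) k} {lam : BB (Fin 2) k} {e : k} {l : MvPolynomial (Fin 2) k}
  {Dl : MvPolynomial (Fin 2) k →ₗ[k] Ω}
  {E : MvPolynomial (Fin 2) k ≃ₐ[k] MvPolynomial (Fin 2) k}

/-- the new point -/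
noncomputable def nx (E : MvPolynomial (Fin 2) k ≃ₐ[k] MvPolynomial (Fin 2) k)
    (x : Fin 2 → Ω) : Fin 2 → Ω := fun i => aeval x (E.symm (X i))

theorem aeval_nx (f : MvPolynomial (Fin 2) k) : aeval (nx E x) f = aeval x (E.symm f) := by
  have h : (aeval (nx E x) : MvPolynomial (Fin 2) k →ₐ[k] Ω) =
      (aeval x).comp E.symm.toAlgHom := by
    apply MvPolynomial.algHom_ext
    intro i
    simp [nx]
  exact DFunLike.congr_fun h f

theorem aeval_nx' (f : MvPolynomial (Fin 2) k) : aeval (nx E x) (E f) = aeval x f := by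
  rw [aeval_nx, AlgEquiv.symm_apply_apply]

theorem dg_le_box {B : ℕ} {m : Ex} (h : dg m ≤ B) : m ∈ box B := by
  rw [mem_box]
  unfold dg at h
  omega

theorem bdd_map (W : Submodule k (MvPolynomial (Fin 2) k))
    (E : MvPolynomial (Fin 2) k ≃ₐ[k] MvPolynomial (Fin 2) k)
    (h : ∃ B : ℕ, ∀ N ∈ W, ∀ m ∈ N.support, dg m ≤ B) :
    ∃ B : ℕ, ∀ N ∈ W.map E.toLinearMap, ∀ m ∈ N.support, dg m ≤ B := by
  classical
  obtain ⟨B, hB⟩ := h
  refine ⟨(box B).sup fun m => (E (monomial m 1)).support.sup dg, ?_⟩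
  rintro _ ⟨N, hN, rfl⟩ n hn
  have h1 : E.toLinearMap N = ∑ m ∈ N.support, coeff m N • E (monomial m 1) := by
    conv_lhs => rw [N.as_sum]
    rw [map_sum]
    refine Finset.sum_congr rfl fun m _ => ?_
    have : (monomial m (coeff m N) : MvPolynomial (Fin 2) k) = coeff m N • monomial m 1 := by
      rw [smul_monomial, smul_eq_mul, mul_one]
    rw [this, map_smul]
    rfl
  rw [mem_support_iff, h1, coeff_sum] at hn
  obtain ⟨m, hm, h2⟩ := Finset.exists_ne_zero_of_sum_ne_zero hn
  rw [coeff_smul, smul_eq_mul] at h2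
  have h3 := right_ne_zero_of_mul h2
  have h4 : dg n ≤ (E (monomial m 1)).support.sup dg :=
    Finset.le_sup (f := dg) (mem_support_iff.mpr h3)
  exact h4.trans (Finset.le_sup (f := fun m => (E (monomial m 1)).support.sup dg)
    (dg_le_box (hB N hN m hm)))

/-- Transport of the data along an additive automorphism. -/
theorem Lay.map [Infinite k] (h : Lay p v κ t ν W x z G lam e l Dl) (hE : AA E) :
    Lay p v κ t ν (W.map E.toLinearMap) (nx E x) z (E G) (lm E lam) e (E l)
      (Dl.comp E.symm.toLinearMap) where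
  kap := h.kap
  nu := h.nu
  bdd := bdd_map W E h.bdd
  zero := by
    rintro _ ⟨N, hN, rfl⟩
    have := hE.cc N
    rw [h.zero N hN] at this
    exact this
  tr := by
    rintro c _ ⟨N, hN, rfl⟩
    refine ⟨TWLY.tr (pt E c) N - C (eval (pt E c) N), h.tr _ N hN, ?_⟩
    show E _ = TWLY.tr c (E N) - C (eval c (E N))
    rw [hE.tr, eval_map, map_sub]
    congr 1
    rw [← algebraMap_eq, AlgEquiv.commutes]
  le := by
    rintro _ ⟨N, hN, rfl⟩
    have h1 : aeval (nx E x) (E.toLinearMap N) = aeval x N := aeval_nx' N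
    rw [h1]
    exact h.le N hN
  z_ne := by
    intro f hf
    rw [aeval_nx]
    exact h.z_ne _ (by rw [hE.inv.cc, hf])
  z_lt := by
    intro f hf
    rw [aeval_nx]
    exact h.z_lt _ (by rw [hE.inv.cc, hf])
  rel := by
    intro f hf r hr h1 h2
    rw [aeval_nx] at h1
    rw [aeval_nx']
    refine h.rel (E.symm f) (by rw [hE.inv.cc, hf]) r hr h1 ?_
    have h3 : (Dl.comp E.symm.toLinearMap) (C e * f + E l) = Dl (C e * E.symm f + l) := by
      show Dl (E.symm (C e * f + E l)) = _
      rw [map_add, map_mul, AlgEquiv.symm_apply_apply, ← algebraMap_eq, AlgEquiv.commutes]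
    rw [h3] at h2
    exact h2
  leib := by
    intro f g
    show Dl (E.symm (f * g)) = aeval (nx E x) f * Dl (E.symm g) + aeval (nx E x) g * Dl (E.symm f)
    rw [map_mul, h.leib, aeval_nx, aeval_nx]
  norm := by
    intro f r hf
    rw [aeval_nx] at hf
    exact h.norm _ r hf
  G0 := by rw [hE.cc, h.G0]
  Gp := by
    obtain ⟨g, hg⟩ := h.Gp
    exact ⟨E g, by rw [hg, map_pow]⟩
  om := by
    intro c
    refine ⟨_, h.om (pt E c), ?_⟩
    show E _ = _
    rw [map_add, map_sub, map_sub, hE.tr, eval_map, evc_lm]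
    congr 1
    · congr 1
      rw [← algebraMap_eq, AlgEquiv.commutes]
    · exact PP_map E.toAlgHom _
  lin := hE.map h.lin
  cas := by
    rcases h.cas with h1 | ⟨h1, h2, h3⟩
    · exact Or.inl h1
    · refine Or.inr ⟨by rw [h1, map_zero], fun i => ?_, fun c i => ?_⟩
      · have hy : ∀ j, coeff 0 (cz k (E (X j)) : BB (Fin 2) k) = 0 := by
          intro j
          rw [coeff_cz, (hE.adt j).coeff_zero, C_0]
        have h4 := coeff_single_eval₂ (E : MvPolynomial (Fin 2) k →+* MvPolynomial (Fin 2) k)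
          (fun i => cz k (E (X i))) hy lam i
        rw [lm, h4]
        refine Submodule.sum_mem _ fun j _ => ?_
        rw [coeff_cz, mul_comm, ← smul_eq_C_mul]
        exact Submodule.smul_mem _ _ ⟨_, h2 j, rfl⟩
      · rw [evc_lm]
        have hy : ∀ j, coeff 0 (E (X j)) = 0 := fun j => (hE.adt j).coeff_zero
        have h4 := coeff_single_eval₂ (RingHom.id k) (fun i => E (X i)) hy (evc (pt E c) lam) i
        have h5 : (eval₂Hom (C.comp (RingHom.id k)) fun i => E (X i)) (evc (pt E c) lam) =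
            E (evc (pt E c) lam) := by
          have h6 : (aeval fun i => E (X i) : MvPolynomial (Fin 2) k →ₐ[k] _) = E.toAlgHom := by
            apply MvPolynomial.algHom_ext
            intro i
            simp
          exact DFunLike.congr_fun h6 _
        rw [← h5, h4]
        refine Finset.sum_eq_zero fun j _ => ?_
        rw [h3, map_zero, zero_mul]

end transport

end Pool.Agent.TWLY
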