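import Pool.Agent.Lib.TWLY.I

/-!
# Layer lemma X: elementary automorphisms and leading monomials
-/

set_option autoImplicit false

namespace Pool.Agent.TWLY

open MvPolynomial
open TWIV.JW (BB sh cz ev2 ev2_sh)
open Pool.Agent.H15JM (RVal)
open Pool.Agent.LU1 (VPos)
open Pool.Agent.D2 (Ctx0)
open Pool.Agent.TWM (Gt)

universe u

/-! ## the elementary automorphism -/

section el

variable {k : Type u} [Field k]

/-- the elementary substitution -/
noncomputable def es (i j : Fin 2) (q : ℕ) (c : k) :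
    MvPolynomial (Fin 2) k →ₐ[k] MvPolynomial (Fin 2) k :=
  aeval (fun a => if a = j then X j + C c * X i ^ q else X a)

theorem es_j (i j : Fin 2) (q : ℕ) (c : k) : es i j q c (X j) = X j + C c * X i ^ q := by
  simp [es]

theorem es_i {i j : Fin 2} (hij : i ≠ j) (q : ℕ) (c : k) : es i j q c (X i) = X i := by
  simp [es, hij]

theorem es_C (i j : Fin 2) (q : ℕ) (c a : k) : es i j q c (C a) = C a := by
  rw [← algebraMap_eq, AlgHom.commutes]

theorem es_comp {i j : Fin 2} (hij : i ≠ j) (q : ℕ) (c c' : k) (h : c + c' = 0) :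
    (es i j q c).comp (es i j q c') = AlgHom.id k _ := by
  apply MvPolynomial.algHom_ext
  refine all_pair hij ?_ ?_
  · rw [AlgHom.comp_apply, es_i hij, es_i hij, AlgHom.id_apply]
  · rw [AlgHom.comp_apply, es_j, map_add, es_j, map_mul, map_pow, es_i hij, es_C,
      AlgHom.id_apply, add_assoc, ← add_mul, ← C_add, h, C_0, zero_mul, add_zero]

/-- the elementary automorphism -/
noncomputable def ee {i j : Fin 2} (hij : i ≠ j) (q : ℕ) (c : k) :
    MvPolynomial (Fin 2) k ≃ₐ[k] MvPolynomial (Fin 2) k :=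
  AlgEquiv.ofAlgHom (es i j q c) (es i j q (-c)) (es_comp hij q c (-c) (by ring))
    (es_comp hij q (-c) c (by ring))

theorem ee_apply {i j : Fin 2} (hij : i ≠ j) (q : ℕ) (c : k) (f : MvPolynomial (Fin 2) k) :
    ee hij q c f = es i j q c f := rfl

theorem ee_symm {i j : Fin 2} (hij : i ≠ j) (q : ℕ) (c : k) (f : MvPolynomial (Fin 2) k) :
    (ee hij q c).symm f = es i j q (-c) f := rfl

theorem es_adt {i j : Fin 2} (hij : i ≠ j) {p : ℕ} [Fact p.Prime] [CharP k p] (a : ℕ) (c : k)
    (b : Fin 2) : Adt (es i j (p ^ a) c (X b)) := by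
  have : ExpChar k p := ExpChar.prime Fact.out
  refine all_pair hij (P := fun b => Adt (es i j (p ^ a) c (X b))) ?_ ?_ b
  · intro s d
    rw [es_i hij]
    simp
  · intro s d
    rw [es_j]
    simp only [map_add, map_mul, map_pow, eval_X, eval_C, Pi.add_apply]
    rw [add_pow_expChar_pow]
    ring

theorem ee_aa {i j : Fin 2} (hij : i ≠ j) {p : ℕ} [Fact p.Prime] [CharP k p] (a : ℕ) (c : k) :
    AA (ee hij (p ^ a) c) :=
  ⟨fun b => es_adt hij a c b, fun b => es_adt hij a (-c) b⟩

/-- weight with `X j` of weight `q` -/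
def mu (i j : Fin 2) (q : ℕ) (m : Ex) : ℕ := m i + q * m j

/-- exponent with given entries -/
noncomputable def mk2 (i j : Fin 2) (a b : ℕ) : Ex := Finsupp.single i a + Finsupp.single j b

theorem mk2_i {i j : Fin 2} (hij : i ≠ j) (a b : ℕ) : mk2 i j a b i = a := by
  simp [mk2, hij.symm]

theorem mk2_j {i j : Fin 2} (hij : i ≠ j) (a b : ℕ) : mk2 i j a b j = b := by
  simp [mk2, hij]

theorem es_monomial {i j : Fin 2} (hij : i ≠ j) (q : ℕ) (c : k) (n : Ex) (a : k) :
    es i j q c (monomial n a) = ∑ r ∈ Finset.range (n j + 1),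
      monomial (mk2 i j (n i + q * (n j - r)) r) (a * (c ^ (n j - r) * (n j).choose r)) := by
  have h1 : (monomial n a : MvPolynomial (Fin 2) k) = C a * (X i ^ n i * X j ^ n j) := by
    have h2 : n = mk2 i j (n i) (n j) :=
      ex_ext' hij (mk2_i hij _ _).symm (mk2_j hij _ _).symm
    rw [X_pow_eq_monomial, X_pow_eq_monomial, monomial_mul, C_mul_monomial, mul_one, mul_one]
    show monomial n a = monomial (mk2 i j (n i) (n j)) a
    rw [← h2]
  rw [h1, map_mul, map_mul, map_pow, map_pow, es_i hij, es_j, es_C, add_pow, Finset.mul_sum,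
    Finset.mul_sum]
  refine Finset.sum_congr rfl fun r _ => ?_
  have e1 : ((n j).choose r : MvPolynomial (Fin 2) k) = C ((n j).choose r : k) := by simp
  have e2 : (C c * X i ^ q : MvPolynomial (Fin 2) k) ^ (n j - r) =
      C (c ^ (n j - r)) * X i ^ (q * (n j - r)) := by
    rw [mul_pow, ← C_pow, ← pow_mul]
  have e3 : (X i ^ n i * X i ^ (q * (n j - r)) * X j ^ r : MvPolynomial (Fin 2) k) =
      monomial (mk2 i j (n i + q * (n j - r)) r) 1 := by
    rw [← pow_add, X_pow_eq_monomial, X_pow_eq_monomial, monomial_mul, mul_one]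
    rfl
  have e4 : C a * (X i ^ n i * (X j ^ r * (C c * X i ^ q) ^ (n j - r) *
      ((n j).choose r : MvPolynomial (Fin 2) k))) =
      C (a * (c ^ (n j - r) * ((n j).choose r : k))) *
        (X i ^ n i * X i ^ (q * (n j - r)) * X j ^ r) := by
    rw [e1, e2, C_mul, C_mul]
    ring
  rw [e4, e3, C_mul_monomial, mul_one]

/-- The coefficients after an elementary substitution. -/
theorem coeff_es {i j : Fin 2} (hij : i ≠ j) (q : ℕ) (c : k) (N : MvPolynomial (Fin 2) k)
    (m : Ex) : coeff m (es i j q c N) = ∑ n ∈ N.support,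
      if mu i j q n = mu i j q m then
        coeff n N * (c ^ (n j - m j) * ((n j).choose (m j) : k)) else 0 := by
  classical
  conv_lhs => rw [N.as_sum]
  rw [map_sum, coeff_sum]
  refine Finset.sum_congr rfl fun n _ => ?_
  rw [es_monomial hij, coeff_sum]
  simp_rw [coeff_monomial]
  unfold mu
  by_cases h1 : m j ≤ n j
  · rw [Finset.sum_eq_single (m j)]
    · have h2 : mk2 i j (n i + q * (n j - m j)) (m j) = m ↔ n i + q * n j = m i + q * m j := by
        have h4 : q * n j = q * (n j - m j) + q * m j := by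
          rw [← Nat.mul_add, Nat.sub_add_cancel h1]
        constructor
        · intro h3
          have h5 := DFunLike.congr_fun h3 i
          rw [mk2_i hij] at h5
          omega
        · intro h3
          refine ex_ext' hij ?_ (mk2_j hij _ _)
          rw [mk2_i hij]
          omega
      simp_rw [h2]
    · intro r _ hr
      rw [if_neg]
      intro h3
      have h5 := DFunLike.congr_fun h3 j
      rw [mk2_j hij] at h5
      exact hr h5
    · intro h3
      rw [Finset.mem_range] at h3
      omega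
  · push Not at h1
    rw [Nat.choose_eq_zero_of_lt h1]
    simp only [Nat.cast_zero, mul_zero, ite_self]
    refine Finset.sum_eq_zero fun r hr => ?_
    rw [Finset.mem_range] at hr
    rw [if_neg]
    intro h3
    have h5 := DFunLike.congr_fun h3 j
    rw [mk2_j hij] at h5
    omega

/-- The leading polynomial in one variable. -/
noncomputable def lp (i j : Fin 2) (q M : ℕ) (N : MvPolynomial (Fin 2) k) : Polynomial k :=
  ∑ n ∈ N.support with mu i j q n = M, Polynomial.C (coeff n N) * Polynomial.X ^ n j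

theorem coeff_es_top {i j : Fin 2} (hij : i ≠ j) (q : ℕ) (c : k)
    (N : MvPolynomial (Fin 2) k) (m : Ex) :
    coeff m (es i j q c N) =
      ((lp i j q (mu i j q m) N).comp (Polynomial.X + Polynomial.C c)).coeff (m j) := by
  rw [coeff_es hij, lp, Polynomial.sum_comp, Polynomial.finsetSum_coeff, Finset.sum_filter]
  refine Finset.sum_congr rfl fun n _ => ?_
  split_ifs
  · rw [Polynomial.mul_comp, Polynomial.C_comp, Polynomial.pow_comp, Polynomial.X_comp,
      Polynomial.coeff_C_mul, Polynomial.coeff_X_add_C_pow]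
  · rfl

theorem lp_ne_zero {i j : Fin 2} (hij : i ≠ j) {q M : ℕ} {N : MvPolynomial (Fin 2) k} {n₀ : Ex}
    (h₀ : n₀ ∈ N.support) (hM : mu i j q n₀ = M) : lp i j q M N ≠ 0 := by
  classical
  intro h0
  have h1 : (lp i j q M N).coeff (n₀ j) = coeff n₀ N := by
    rw [lp, Polynomial.finsetSum_coeff, Finset.sum_eq_single n₀]
    · simp
    · intro m hm hne
      rw [Finset.mem_filter] at hm
      rw [Polynomial.coeff_C_mul, Polynomial.coeff_X_pow, if_neg, mul_zero]
      intro h2
      apply hne
      have h3 := hm.2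
      unfold mu at h3 hM
      rw [h2] at hM
      exact ex_ext' hij (by omega) h2.symm
    · intro h2
      exact absurd (Finset.mem_filter.mpr (⟨h₀, hM⟩ : n₀ ∈ N.support ∧ mu i j q n₀ = M)) h2
  rw [h0, Polynomial.coeff_zero] at h1
  exact (mem_support_iff.mp h₀) h1.symm

theorem lp_natDegree_le {i j : Fin 2} {q M : ℕ} {N : MvPolynomial (Fin 2) k} {B : ℕ}
    (h : ∀ n ∈ N.support, mu i j q n = M → n j ≤ B) : (lp i j q M N).natDegree ≤ B := by
  rw [lp]
  refine Polynomial.natDegree_sum_le_of_forall_le _ _ fun n hn => ?_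
  rw [Finset.mem_filter] at hn
  exact (Polynomial.natDegree_C_mul_X_pow_le _ _).trans (h n hn.1 hn.2)

theorem lp_mult_le {i j : Fin 2} (hij : i ≠ j) {q M : ℕ} (hq : 0 < q)
    {N : MvPolynomial (Fin 2) k} {n₀ : Ex} (h₀ : n₀ ∈ N.support) (hM : mu i j q n₀ = M) {B : ℕ}
    (h : ∀ n ∈ N.support, mu i j q n = M → n i ≤ B) {c : k} (hc : c ≠ 0) :
    q * (lp i j q M N).rootMultiplicity c ≤ B := by
  classical
  obtain ⟨n₁, hn₁, hmin⟩ := ({n ∈ N.support | mu i j q n = M} : Finset Ex).exists_min_image
    (fun n => n j) ⟨n₀, Finset.mem_filter.mpr ⟨h₀, hM⟩⟩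
  rw [Finset.mem_filter] at hn₁
  set s := n₁ j with hs
  set g : Polynomial k := ∑ n ∈ N.support with mu i j q n = M,
    Polynomial.C (coeff n N) * Polynomial.X ^ (n j - s) with hg
  have h1 : lp i j q M N = Polynomial.X ^ s * g := by
    rw [lp, hg, Finset.mul_sum]
    refine Finset.sum_congr rfl fun n hn => ?_
    have h2 : s ≤ n j := hmin n hn
    rw [mul_left_comm, ← pow_add, Nat.add_sub_cancel' h2]
  have h0 := lp_ne_zero hij h₀ hM
  rw [h1] at h0 ⊢
  rw [Polynomial.rootMultiplicity_mul h0]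
  have h2 : (Polynomial.X ^ s : Polynomial k).rootMultiplicity c = 0 := by
    rw [Polynomial.rootMultiplicity_eq_zero]
    intro h3
    rw [Polynomial.IsRoot.def, Polynomial.eval_pow, Polynomial.eval_X] at h3
    exact hc (eq_zero_of_pow_eq_zero h3)
  have h3 : g.rootMultiplicity c ≤ g.natDegree := by
    rw [← Polynomial.count_roots]
    exact (Multiset.count_le_card _ _).trans (Polynomial.card_roots' g)
  have h4 : g.natDegree ≤ B / q := by
    rw [hg]
    refine Polynomial.natDegree_sum_le_of_forall_le _ _ fun n hn => ?_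
    refine (Polynomial.natDegree_C_mul_X_pow_le _ _).trans ?_
    rw [Nat.le_div_iff_mul_le hq]
    rw [Finset.mem_filter] at hn
    have h5 := hn.2
    have h6 := hn₁.2
    have h7 := h n₁ hn₁.1 hn₁.2
    unfold mu at h5 h6
    rw [← hs] at h6
    have h8 : (n j - s) * q = q * n j - q * s := by
      rw [Nat.sub_mul, mul_comm, mul_comm s]
    rw [h8]
    omega
  rw [h2, zero_add]
  calc q * g.rootMultiplicity c ≤ q * (B / q) := Nat.mul_le_mul_left _ (h3.trans h4)
    _ ≤ B := Nat.mul_div_le B q

theorem wt_mu {i j : Fin 2} (hij : i ≠ j) {q : ℕ} {w : Fin 2 → ℝ} (hj : w j = q * w i) (m : Ex) :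
    wt w m = mu i j q m * w i := by
  rw [wt_pair hij, hj]
  unfold mu
  push_cast
  ring

/-- The new leading monomials after an elementary substitution. -/
theorem lead_es {i j : Fin 2} (hij : i ≠ j) {q : ℕ} (hq : 0 < q) (c : k) {w w' : Fin 2 → ℝ}
    (hwi : 0 < w i) (hwj : w j = q * w i) (hwi' : w' i = w i) (hwj' : w' j < w j)
    {N : MvPolynomial (Fin 2) k} (hN : N ≠ 0) :
    ∃ M, (∃ n ∈ N.support, mu i j q n = M) ∧
      (∀ n ∈ N.support, mu i j q n = M → ∀ n' ∈ N.support, wt w n' ≤ wt w n) ∧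
      ∀ m ∈ (es i j q c N).support, (∀ n ∈ (es i j q c N).support, wt w' n ≤ wt w' m) →
        m j ≤ (lp i j q M N).rootMultiplicity c := by
  classical
  obtain ⟨n₀, hn₀, hmax⟩ := N.support.exists_max_image (mu i j q) (support_nonempty.mpr hN)
  set M := mu i j q n₀ with hM
  refine ⟨M, ⟨n₀, hn₀, rfl⟩, ?_, ?_⟩
  · intro n _ hnM n' hn'
    rw [wt_mu hij hwj, wt_mu hij hwj, hnM]
    have h1 : (mu i j q n' : ℝ) ≤ M := by exact_mod_cast hmax n' hn'
    nlinarith
  · intro m hm hlead
    set ℓ := lp i j q M N with hℓ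
    have hℓ0 : ℓ ≠ 0 := lp_ne_zero hij hn₀ hM.symm
    set ℓ' := ℓ.comp (Polynomial.X + Polynomial.C c) with hℓ'
    have hdeg : ℓ'.natDegree = ℓ.natDegree := by
      rw [hℓ', Polynomial.natDegree_comp, Polynomial.natDegree_X_add_C, mul_one]
    have hℓ'0 : ℓ' ≠ 0 := by
      intro h1
      have h2 : ℓ'.comp (Polynomial.X - Polynomial.C c) = ℓ := by
        rw [hℓ', Polynomial.comp_assoc]
        simp
      rw [h1, Polynomial.zero_comp] at h2
      exact hℓ0 h2.symm
    rw [Polynomial.rootMultiplicity_eq_natTrailingDegree]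
    set o := ℓ'.natTrailingDegree with ho
    have ho1 : ℓ'.coeff o ≠ 0 := by
      rw [ho]
      exact Polynomial.coeff_natTrailingDegree_ne_zero.mpr hℓ'0
    have ho2 : o ≤ M / q := by
      refine (Polynomial.natTrailingDegree_le_natDegree _).trans ?_
      rw [hdeg]
      refine lp_natDegree_le fun n _ hn => ?_
      rw [Nat.le_div_iff_mul_le hq]
      unfold mu at hn
      rw [mul_comm]
      omega
    have ho3 : q * o ≤ M := by
      rw [mul_comm]
      exact (Nat.le_div_iff_mul_le hq).mp ho2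
    have hmu : mu i j q (mk2 i j (M - q * o) o) = M := by
      unfold mu
      rw [mk2_i hij, mk2_j hij]
      omega
    have hm₁ : mk2 i j (M - q * o) o ∈ (es i j q c N).support := by
      rw [mem_support_iff, coeff_es_top hij, hmu, mk2_j hij]
      exact ho1
    have h1 := hlead _ hm₁
    have h2 : mu i j q m ≤ M := by
      rw [mem_support_iff, coeff_es hij] at hm
      obtain ⟨n, hn, h3⟩ := Finset.exists_ne_zero_of_sum_ne_zero hm
      have h4 : mu i j q n = mu i j q m := by
        by_contra h5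
        exact h3 (if_neg h5)
      rw [← h4]
      exact hmax n hn
    have h3 : ∀ m : Ex, wt w' m = mu i j q m * w i - m j * (w j - w' j) := by
      intro m
      rw [wt_pair hij, hwi', hwj]
      unfold mu
      push_cast
      ring
    rw [h3, h3, hmu, mk2_j hij] at h1
    have h4 : (mu i j q m : ℝ) ≤ M := by exact_mod_cast h2
    have h5 : (m j : ℝ) * (w j - w' j) ≤ o * (w j - w' j) := by nlinarith
    have h6 : (m j : ℝ) ≤ o := le_of_mul_le_mul_right h5 (by linarith)
    exact_mod_cast h6

end el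

end Pool.Agent.TWLY
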